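import Pool.Agent.W_7742l_h74.LExp
import Pool.Agent.W_7742g_h15.PowA

/-! # Companion matrices -/

set_option autoImplicit false

noncomputable section

namespace Pool.Agent.OneL74

open Polynomial

/-- A matrix with given characteristic polynomial whose entries are `0`, `1` or coefficients. -/
theorem exists_companion {R : Type} [CommRing R] [Nontrivial R] (Q : R[X]) (hQ : Q.Monic)
    (n : ℕ) (hn : Q.natDegree = n) : ∃ C : Matrix (Fin n) (Fin n) R, C.charpoly = Q ∧
      ∀ i j, C i j = 0 ∨ C i j = 1 ∨ ∃ k, C i j = -Q.coeff k := by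
  subst hn
  obtain ⟨pb, hpb⟩ : ∃ pb : PowerBasis R (AdjoinRoot Q), pb = AdjoinRoot.powerBasis' hQ :=
    ⟨_, rfl⟩
  have hgen : pb.gen = AdjoinRoot.root Q := by rw [hpb]; rfl
  have hdim : pb.dim = Q.natDegree := by rw [hpb]; rfl
  have h1 := charpoly_leftMulMatrix pb
  have hP : (Algebra.leftMulMatrix pb.basis pb.gen).charpoly = Q := by
    have hmon := Matrix.charpoly_monic (Algebra.leftMulMatrix pb.basis pb.gen)
    have hdeg := Matrix.charpoly_natDegree_eq_dim (Algebra.leftMulMatrix pb.basis pb.gen)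
    rw [Fintype.card_fin] at hdeg
    replace hdeg := hdeg.trans hdim
    have h0 : aeval (AdjoinRoot.root Q) (Algebra.leftMulMatrix pb.basis pb.gen).charpoly = 0 := by
      rw [h1, ← hgen]
      exact minpoly.aeval R pb.gen
    rw [AdjoinRoot.aeval_eq, AdjoinRoot.mk_eq_zero] at h0
    exact (Polynomial.eq_of_monic_of_dvd_of_natDegree_le hQ hmon h0 hdeg.le)
  have hM : pb.minpolyGen = Q := by
    have h0 : aeval (AdjoinRoot.root Q) pb.minpolyGen = 0 := by
      rw [← hgen]
      exact pb.aeval_minpolyGen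
    rw [AdjoinRoot.aeval_eq, AdjoinRoot.mk_eq_zero] at h0
    exact Polynomial.eq_of_monic_of_dvd_of_natDegree_le hQ pb.minpolyGen_monic h0
      (pb.natDegree_minpolyGen.trans hdim).le
  rw [← hdim]
  refine ⟨_, hP, fun i j => ?_⟩
  rw [PowerBasis.leftMulMatrix, Matrix.of_apply]
  split_ifs
  · exact Or.inr (Or.inr ⟨i, by rw [hM]⟩)
  · exact Or.inr (Or.inl rfl)
  · exact Or.inl rfl

/-- The heights of the traces of the powers of a companion matrix. -/
theorem exists_companion_height {K O : Type} [Field K] [NumberField K] [CommRing O] [Nontrivial O]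
    (j : O →+* K) {T n : ℕ} (hT : 1 ≤ T) (hnT : n ≤ T) (Q : O[X]) (hQ : Q.Monic)
    (hn : Q.natDegree = n) (hh : ∀ k, HB T 1 (j (Q.coeff k))) :
    ∃ D : Matrix (Fin n) (Fin n) O, D.charpoly = Q ∧
      ∀ k, HB T (1 + n * ae n k) (j ((D ^ k).trace)) := by
  obtain ⟨D, hD, hent⟩ := exists_companion Q hQ n hn
  refine ⟨D, hD, fun k => ?_⟩
  have h1 := HB.trace_pow hT hnT (D.map j) (fun i l => by
    rw [Matrix.map_apply]
    rcases hent i l with h | h | ⟨m, h⟩
    · rw [h, map_zero]
      exact HB.zero hT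
    · rw [h, map_one]
      exact HB.one hT
    · rw [h, map_neg]
      exact (hh m).neg) k
  have h2 : ((D.map j) ^ k).trace = j ((D ^ k).trace) := by
    rw [← RingHom.mapMatrix_apply, ← map_pow, RingHom.mapMatrix_apply, Matrix.trace, Matrix.trace,
      map_sum]
    rfl
  rw [← h2]
  exact h1

end Pool.Agent.OneL74
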