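import Pool.Agent.W_7742l_h74.LMai
import Pool.Agent.W_7742n_h74.CFam

/-! # Families of representations which are near to a system -/

set_option autoImplicit false

noncomputable section

open Filter Topology NumberField

namespace Pool.Agent.OneL74

open Height Pool.Agent.GalSide Pool.Agent.OneI74
open Pool.Agent.OneJ74 (h₁ h₂)
open Pool.Agent.OneN74 (UpLE density_of_upLE unique_c)

variable {G : Type} [Group G] [TopologicalSpace G] [IsTopologicalGroup G] [CompactSpace G]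

/-- The representation `r` is near to the system `z`. -/
def Near (Φ : FrobeniusData G) (z : Nat.Primes → ℂ) (ε : ℝ) (T E : ℕ) {n : ℕ} {K O A : Type}
    [Field K] [NumberField K] [CommRing O] [CommRing A] (s₀ : K →+* ℂ) (j : O →+* K) (ι : O →+* A)
    (r : G →* Matrix (Fin n) (Fin n) A) : Prop :=
  (∀ x : O, ι x = 0 → mulHeight₁ (j x) < ((T : ℝ) ^ E) ^ Module.finrank ℚ K → x = 0) ∧
  IsOpen ({g | r g = 1} : Set G) ∧
  ∃ X : Set Nat.Primes, UpLE X ε ∧ ∀ p ∉ X, ∃ c : O, s₀ (j c) = z p ∧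
    HB T 1 (j c) ∧ (r (Φ.frob p)).trace = ι c

theorem cst_of {n T : ℕ} {M : ℝ} (hn : 2 ≤ n) (hT : 2 * n ≤ T) (hM : (n : ℝ) ^ 2 ≤ M) :
    Cst n T ((2 * n) ^ (2 * n)) M := by
  have h1 := ine_c (k := 0) hn (Nat.zero_le _)
  have h2 : (2 * n) ^ 2 ≤ T ^ 2 := Nat.pow_le_pow_left hT 2
  have h3 : n + 1 ≤ T := by omega
  have h4 : n ^ 2 + 1 ≤ T ^ 2 := by nlinarith
  have h5 : 2 * (n ^ 2 + 1) + (n ^ 2 + 1) ^ 2 + 1 < (2 * n) ^ (2 * n) := by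
    refine lt_of_le_of_lt ?_ h1
    omega
  exact ⟨by omega, h3, h4, hM, by omega, h5, ine_q hn⟩

/-- One member of the family. -/
theorem step (Φ : FrobeniusData G) {z : Nat.Primes → ℂ}
    (hz : ∀ ε : ℝ, 0 < ε → LogBound (1 + ε) (fun p => ‖z p‖ ^ 2))
    {n : ℕ} (hn : 2 ≤ n) {M ε : ℝ} (hM : (n : ℝ) ^ 2 ≤ M)
    (he1 : h₁ n * (ε + 1 / M) ≤ 1) (he2 : h₂ n * (ε + 1 / M) ≤ 1)
    (he3 : 4 * (n : ℝ) ^ 2 * (M * ε) ≤ 1) {T : ℕ} (hT : 2 * n ≤ T)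
    {K O A : Type} [Field K] [NumberField K] [CommRing O] [CommRing A] (s₀ : K →+* ℂ)
    (j : O →+* K) (ι : O →+* A) (r : G →* Matrix (Fin n) (Fin n) A)
    (hr : Near Φ z ε T ((2 * n) ^ (2 * n)) s₀ j ι r) :
    ∃ (U : Subgroup G) (_ : U.Normal) (R : G ⧸ U →* Matrix (Fin n) (Fin n) ℂ),
      IsOpen (U : Set G) ∧
      (∀ W : Submodule ℂ (Fin n → ℂ), (∀ g, ∀ w ∈ W, (R g).mulVec w ∈ W) → W = ⊥ ∨ W = ⊤) ∧
      UpLE {p | z p ≠ (R (QuotientGroup.mk (Φ.frob p))).trace} ε ∧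
      (∀ g, r g = 1 → (R (QuotientGroup.mk g)).trace = n) ∧
      ∀ g c h, ι c = (r g).trace → HB T h (j c) →
        2 * (n ^ 2 + 1) + (n ^ 2 + 1) ^ 2 + h < (2 * n) ^ (2 * n) →
        (R (QuotientGroup.mk g)).trace = s₀ (j c) := by
  obtain ⟨hN, hro, X, hX, h2⟩ := hr
  obtain ⟨U, hU, R, k1, k2, k3, k4, k5⟩ := main_l Φ hz (cst_of hn hT hM) hX he1 he2 he3 s₀ j ι
    hN r hro h2
  refine ⟨U, hU, R, k1, k3, k4, fun g hg => ?_, k5⟩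
  rw [(QuotientGroup.eq_one_iff g).2 (k2 g hg), map_one, Matrix.trace_one, Fintype.card_fin]

theorem fam_l (Φ : FrobeniusData G) {z : Nat.Primes → ℂ}
    (hz : ∀ ε : ℝ, 0 < ε → LogBound (1 + ε) (fun p => ‖z p‖ ^ 2)) {n : ℕ} (hn : 2 ≤ n)
    (hfam : ∀ ε : ℝ, 0 < ε → ∃ T : ℕ, 2 * n ≤ T ∧ ∃ (K O A : Type) (_ : Field K)
      (_ : NumberField K) (_ : CommRing O) (_ : CommRing A) (s₀ : K →+* ℂ) (j : O →+* K)
      (ι : O →+* A) (r : G →* Matrix (Fin n) (Fin n) A),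
      Near Φ z ε T ((2 * n) ^ (2 * n)) s₀ j ι r) :
    ∃ (U : Subgroup G) (_ : U.Normal) (R : G ⧸ U →* Matrix (Fin n) (Fin n) ℂ),
      IsOpen (U : Set G) ∧
      (∀ W : Submodule ℂ (Fin n → ℂ), (∀ g, ∀ w ∈ W, (R g).mulVec w ∈ W) → W = ⊥ ∨ W = ⊤) ∧
      HasDensity {p | z p ≠ (R (QuotientGroup.mk (Φ.frob p))).trace} 0 ∧
      ∃ ε₀ : ℝ, 0 < ε₀ ∧ ∀ T : ℕ, 2 * n ≤ T → ∀ {K O A : Type} [Field K] [NumberField K]
        [CommRing O] [CommRing A] (s₀ : K →+* ℂ) (j : O →+* K)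
        (ι : O →+* A) (r : G →* Matrix (Fin n) (Fin n) A),
        Near Φ z ε₀ T ((2 * n) ^ (2 * n)) s₀ j ι r →
        (∀ g, r g = 1 → (R (QuotientGroup.mk g)).trace = n) ∧
        ∀ g c h, ι c = (r g).trace → HB T h (j c) →
          2 * (n ^ 2 + 1) + (n ^ 2 + 1) ^ 2 + h < (2 * n) ^ (2 * n) →
          (R (QuotientGroup.mk g)).trace = s₀ (j c) := by
  have hn0 : (0 : ℝ) < n := by exact_mod_cast (by omega : 0 < n)
  obtain ⟨h, hh⟩ : ∃ h : ℕ, h = h₁ n + h₂ n := ⟨_, rfl⟩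
  have hh1n : n ^ 2 ≤ 2 * h := by
    rw [hh]
    unfold h₁
    nlinarith [Nat.zero_le (h₂ n), Nat.zero_le (n ^ 2)]
  have hpos : 0 < h := by
    have : 0 < n ^ 2 := by positivity
    omega
  have hposr : (0 : ℝ) < h := by exact_mod_cast hpos
  obtain ⟨M, hMdef⟩ : ∃ M : ℝ, M = 2 * h := ⟨_, rfl⟩
  have hM0 : 0 < M := by rw [hMdef]; positivity
  have hM : (n : ℝ) ^ 2 ≤ M := by
    rw [hMdef]
    exact_mod_cast hh1n
  obtain ⟨δ₁, hδ₁⟩ : ∃ δ₁ : ℝ, δ₁ = 1 / (8 * (n : ℝ) ^ 2) := ⟨_, rfl⟩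
  have hδ0 : 0 < δ₁ := by rw [hδ₁]; positivity
  have hδ2 : 4 * (n : ℝ) ^ 2 * (δ₁ + δ₁) < 2 := by
    have : 4 * (n : ℝ) ^ 2 * (δ₁ + δ₁) = 1 := by
      rw [hδ₁]
      field_simp
      norm_num
    rw [this]
    norm_num
  obtain ⟨e, he⟩ : ∃ e : ℝ → ℝ, ∀ δ, e δ = min (min (1 / (2 * (h : ℝ))) (1 / (4 * (n : ℝ) ^ 2 * M)))
      (min δ δ₁) := ⟨_, fun _ => rfl⟩
  have he0 : ∀ δ, 0 < δ → 0 < e δ := by
    intro δ hδ
    rw [he]
    exact lt_min (lt_min (by positivity) (by positivity)) (lt_min hδ hδ0)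
  have heδ : ∀ δ, e δ ≤ δ := fun δ => by
    rw [he]
    exact (min_le_right _ _).trans (min_le_left _ _)
  have heδ₁ : ∀ δ, e δ ≤ δ₁ := fun δ => by
    rw [he]
    exact (min_le_right _ _).trans (min_le_right _ _)
  have he1 : ∀ δ, e δ ≤ 1 / (2 * h) := fun δ => by
    rw [he]
    exact (min_le_left _ _).trans (min_le_left _ _)
  have he2 : ∀ δ, e δ ≤ 1 / (4 * (n : ℝ) ^ 2 * M) := fun δ => by
    rw [he]
    exact (min_le_left _ _).trans (min_le_right _ _)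
  have hsum : ∀ δ, (h : ℝ) * (e δ + 1 / M) ≤ 1 := by
    intro δ
    calc (h : ℝ) * (e δ + 1 / M) ≤ h * (1 / (2 * h) + 1 / M) :=
          mul_le_mul_of_nonneg_left (by linarith [he1 δ]) hposr.le
      _ = 1 := by
          rw [hMdef]
          field_simp
          norm_num
  have hh1 : ∀ δ, 0 < δ → (h₁ n : ℝ) * (e δ + 1 / M) ≤ 1 := by
    intro δ hδ
    refine le_trans (mul_le_mul_of_nonneg_right ?_ ?_) (hsum δ)
    · exact_mod_cast (by omega : h₁ n ≤ h)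
    · have := he0 δ hδ
      positivity
  have hh2 : ∀ δ, 0 < δ → (h₂ n : ℝ) * (e δ + 1 / M) ≤ 1 := by
    intro δ hδ
    refine le_trans (mul_le_mul_of_nonneg_right ?_ ?_) (hsum δ)
    · exact_mod_cast (by omega : h₂ n ≤ h)
    · have := he0 δ hδ
      positivity
  have hh3 : ∀ δ, 4 * (n : ℝ) ^ 2 * (M * e δ) ≤ 1 := by
    intro δ
    have h2 := he2 δ
    rw [le_div_iff₀ (by positivity)] at h2
    linarith
  have hstep := fun (δ : ℝ) (hδ : 0 < δ) {T : ℕ} (hT : 2 * n ≤ T) {K O A : Type} [Field K]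
    [NumberField K] [CommRing O] [CommRing A] (s₀ : K →+* ℂ)
    (j : O →+* K) (ι : O →+* A) (r : G →* Matrix (Fin n) (Fin n) A) =>
    step Φ hz hn hM (hh1 δ hδ) (hh2 δ hδ) (hh3 δ) hT s₀ j ι r
  obtain ⟨T₁, hT₁, K₁, O₁, A₁, _, _, _, _, s₁, j₁, ι₁, r₁, hr₁⟩ := hfam (e δ₁) (he0 _ hδ0)
  obtain ⟨U, hU, R, k1, k2, k3, -, -⟩ := hstep δ₁ hδ0 hT₁ s₁ j₁ ι₁ r₁ hr₁
  have k3' : UpLE {p | z p ≠ (R (QuotientGroup.mk (Φ.frob p))).trace} δ₁ := k3.mono (heδ _)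
  refine ⟨U, hU, R, k1, k2, ?_, e δ₁, he0 _ hδ0, fun T hT {K O A} _ _ _ _ s j ι r hr => ?_⟩
  · refine density_of_upLE fun δ hδ => ?_
    obtain ⟨T, hT, K, O, A, _, _, _, _, s, j, ι, r, hr⟩ := hfam (e δ) (he0 _ hδ)
    obtain ⟨U', hU', R', l1, l2, l3, -, -⟩ := hstep δ hδ hT s j ι r hr
    have h3 : ∀ g : G, (R (QuotientGroup.mk g)).trace = (R' (QuotientGroup.mk g)).trace :=
      unique_c Φ (by omega) k1 l1 R R' k2 l2 z k3' (l3.mono (heδ₁ δ)) hδ2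
    simp only [h3]
    exact l3.mono (heδ δ)
  · obtain ⟨U', hU', R', l1, l2, l3, l4, l5⟩ := hstep δ₁ hδ0 hT s j ι r hr
    have h3 : ∀ g : G, (R (QuotientGroup.mk g)).trace = (R' (QuotientGroup.mk g)).trace :=
      unique_c Φ (by omega) k1 l1 R R' k2 l2 z k3' (l3.mono (heδ _)) hδ2
    exact ⟨fun g hg => by rw [h3]; exact l4 g hg, fun g c h hc1 hc2 hc3 => by
      rw [h3]
      exact l5 g c h hc1 hc2 hc3⟩

end Pool.Agent.OneL74
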