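import Pool.Agent.W_7742l_h74.LSta
import Pool.Agent.W_7742l_h74.LFam
import Pool.Agent.W_7742l_h74.LCmp
import Pool.Agent.W_7742u_h74.UEnd

/-! # Complex representations attached to a system; families -/

set_option autoImplicit false

noncomputable section

open Filter Topology

namespace Pool.Agent.CritH74

open NumberField Polynomial
open Pool.Agent.OneM74 Pool.Agent.GalSide Pool.Agent.OneP74 Pool.Agent.OneI74 Pool.Agent.OneN74
open Pool.Agent.GL74 Pool.Agent.GLForm74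
open Pool.Agent.Crit74 (dens_mono dens_union dens_level map_trace' cusp_logBound)
open Pool.Agent.Cheb
open Pool.Agent.OneU74 (realize UpLE_union ind_mul)
open Pool.Agent.OneL74 (Near fam_l HB ae ine_c exists_companion_height)

variable {n N : ℕ}

/-- There is an irreducible complex representation attached to the polynomials. -/
def HasC (n : ℕ) (F : Nat.Primes → GQ) (P : ℕ → ℂ[X]) (V : Set GQ) (C : GQ → ℂ[X]) : Prop :=
  ∃ R : GQ →* GL (Fin n) ℂ,
    (∀ W : Submodule ℂ (Fin n → ℂ), (∀ g, ∀ w ∈ W, (R g).val.mulVec w ∈ W) → W = ⊥ ∨ W = ⊤) ∧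
    IsOpen (R.ker : Set GQ) ∧
    DensityZero {p : Nat.Primes | (R (F p)).val.trace ≠ -(P p).coeff (n - 1)} ∧
    ∀ g ∈ V, (R g).val.charpoly = C g

theorem motive_of_C (hn : 0 < n) {F : Nat.Primes → GQ} {P : ℕ → ℂ[X]} {V : Set GQ}
    {C : GQ → ℂ[X]} (h : HasC n F P V C) : HasMotive n F P V C := by
  classical
  obtain ⟨R, hi, ho, hd, hV⟩ := h
  have hfin : Finite (GQ ⧸ R.ker) := Subgroup.quotient_finite_of_isOpen R.ker ho
  have := Fintype.ofFinite (GQ ⧸ R.ker)
  obtain ⟨ρ, hρ⟩ : ∃ ρ : GQ ⧸ R.ker →* Matrix (Fin n) (Fin n) ℂ,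
      ∀ g, ρ (QuotientGroup.mk g) = (R g).val :=
    ⟨(Units.coeHom _).comp (QuotientGroup.kerLift R), fun g => rfl⟩
  obtain ⟨E, hE1, hE2, τ, R₀, hR₀, hirr⟩ := realize hn ρ (fun W hW => hi W fun g w hw => by
    rw [← hρ]
    exact hW _ w hw)
  let R' : GQ →* GL (Fin n) E := (R₀.comp (QuotientGroup.mk' R.ker)).toHomUnits
  have hR' : ∀ g, (R' g).val = R₀ (QuotientGroup.mk g) := fun g => rfl
  have hker : R.ker ≤ R'.ker := by
    intro g hg
    refine MonoidHom.mem_ker.2 (Units.ext ?_)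
    rw [hR', (QuotientGroup.eq_one_iff g).2 hg, map_one]
    rfl
  have htr : ∀ g, τ (R' g).val.trace = (R g).val.trace := by
    intro g
    rw [hR', hR₀, hρ]
  refine ⟨E, hE1, hE2, τ, R', fun τ' W hW => ?_, Subgroup.isOpen_mono hker ho, ?_, fun g hg => ?_⟩
  · refine hirr τ' W fun g w hw => ?_
    obtain ⟨g, rfl⟩ := QuotientGroup.mk_surjective g
    exact hW g w hw
  · simpa only [htr] using hd
  · rw [← hV g hg, ← Matrix.charpoly_map]
    refine Pool.Agent.DZ74.charpoly_eq_of_traces _ _ fun k _ _ => ?_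
    have e1 : ((R' g).val.map τ) ^ k = (R' (g ^ k)).val.map τ := by
      rw [map_pow, Units.val_pow_eq_pow_val, ← RingHom.mapMatrix_apply, ← map_pow]
      rfl
    rw [e1, map_trace', htr, map_pow, Units.val_pow_eq_pow_val]

theorem combineC {F : Nat.Primes → GQ} (hF : IsFrobeniusChoice F) {P : ℕ → ℂ[X]}
    {V : Set GQ} {C : GQ → ℂ[X]} (h0 : HasC n F P ∅ C) (h : ∀ g ∈ V, HasC n F P {g} C) :
    HasC n F P V C := by
  obtain ⟨R, hi, ho, hd, -⟩ := h0
  refine ⟨R, hi, ho, hd, fun g hg => ?_⟩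
  obtain ⟨R', hi', ho', hd', hV'⟩ := h g hg
  have hc := hV' g rfl
  have hZ := Pool.Agent.OneP74.density_union' hd hd' (subset_refl _)
  have htr : ∀ q : Nat.Primes, q ∉ ({q : Nat.Primes | (R (F q)).val.trace ≠
      -(P q).coeff (n - 1)} ∪ {q : Nat.Primes | (R' (F q)).val.trace ≠
      -(P q).coeff (n - 1)} : Set Nat.Primes) →
      (R (F q)).val.trace = (R' (F q)).val.trace := by
    intro q hq
    rw [Set.mem_union, not_or] at hq
    exact (not_not.1 hq.1).trans (not_not.1 hq.2).symm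
  have hF' : Pool.Agent.OneP74.IsFrobeniusFamily F := hF
  exact ((Pool.Agent.DZ74.same_charpoly hF' ho ho' hZ htr g).1).trans hc

/-- For all `ε` there is a `T` such that there is a representation which is nearly attached, over a ring
such that the nonzero elements of the kernel have large height. -/
def NearFamily (n : ℕ) (F : Nat.Primes → GQ) (P : ℕ → ℂ[X]) (V : Set GQ) (C : GQ → ℂ[X]) : Prop :=
  ∀ ε : ℝ, 0 < ε → ∃ T : ℕ, 2 * n ≤ T ∧
    ∃ (K : Type) (_ : Field K) (_ : NumberField K) (s : K →+* ℂ) (O : Subring K) (A : Type)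
      (_ : CommRing A) (ι : O →+* A) (r : GQ →* GL (Fin n) A),
      (∀ x : O, x ≠ 0 → ι x = 0 → HeightGE ((T : ℝ) ^ ((2 * n) ^ (2 * n))) (x : K)) ∧
      NearlyAttached F P V C O.subtype s T ε ι r

theorem upLE_of_mean {X : Set Nat.Primes} {ε : ℝ} (h : MeanLE ε (X.indicator 1)) : UpLE X ε := by
  intro δ hδ
  filter_upwards [h δ hδ] with s hs
  have e1 : (fun p : Nat.Primes => X.indicator (1 : Nat.Primes → ℝ) p * ((p : ℕ) : ℝ) ^ (-s)) =
      X.indicator (fun q : Nat.Primes => ((q : ℕ) : ℝ) ^ (-s)) := funext fun p => ind_mul X s p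
  have h2 := hs.2
  rw [e1] at h2
  exact h2

theorem near_of_attached {F : Nat.Primes → GQ} (Φ : FrobeniusData GQ) (hΦ : Φ.frob = F)
    (hN : 0 < N) {P : ℕ → ℂ[X]} {V : Set GQ} {C : GQ → ℂ[X]} {T : ℕ} {ε : ℝ} {K A : Type}
    [Field K] [NumberField K] [CommRing A] {s : K →+* ℂ} {O : Subring K} {ι : O →+* A}
    {r : GQ →* GL (Fin n) A}
    (hk : ∀ x : O, x ≠ 0 → ι x = 0 → HeightGE ((T : ℝ) ^ ((2 * n) ^ (2 * n))) (x : K))
    (h : NearlyAttached F P V C O.subtype s T ε ι r) :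
    Near Φ (fun p : Nat.Primes => if (p : ℕ) ∣ N then 0 else -(P p).coeff (n - 1)) ε T
      ((2 * n) ^ (2 * n)) s O.subtype ι ((Units.coeHom _).comp r) := by
  obtain ⟨h1, h2, -⟩ := h
  refine ⟨fun x hx hs => ?_, Pool.Agent.OneI74.isOpen_ker r h1, _,
    UpLE_union (upLE_of_mean h2) (dens_level hN) subset_rfl, fun p hp => ?_⟩
  · by_contra h0
    exact absurd (hk x h0 hx) (not_le.2 hs)
  · rw [Set.mem_union, not_or] at hp
    obtain ⟨c, hc1, hc2, hc3⟩ := not_not.1 hp.1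
    have hpN : ¬ (p : ℕ) ∣ N := hp.2
    refine ⟨c, ?_, ?_, ?_⟩
    · dsimp only
      rw [if_neg hpN]
      exact hc1
    · unfold Pool.Agent.OneL74.HB
      rw [pow_one]
      exact hc2
    · rw [hΦ]
      exact hc3

theorem C_of_near (hn : 2 ≤ n) (hN : 0 < N) {P : ℕ → ℂ[X]}
    (hc : IsCuspidalSystem N P n) {F : Nat.Primes → GQ} (hF : IsFrobeniusChoice F)
    {V : Set GQ} {C : GQ → ℂ[X]} (hC : ∀ g ∈ V, (C g).Monic ∧ (C g).natDegree = n)
    (h : NearFamily n F P V C) : HasC n F P V C := by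
  classical
  have hn0 : 0 < n := by omega
  have hF' : Pool.Agent.OneP74.IsFrobeniusFamily F := hF
  choose 𝔓 h𝔓 hp𝔓 hFr using hF'
  obtain ⟨Φ, hΦ⟩ : ∃ Φ : FrobeniusData GQ, Φ.frob = F := ⟨frobeniusData 𝔓 h𝔓 hp𝔓 F hFr, rfl⟩
  obtain ⟨z, hzdef⟩ : ∃ z : Nat.Primes → ℂ,
    z = fun p : Nat.Primes => if (p : ℕ) ∣ N then 0 else -(P p).coeff (n - 1) := ⟨_, rfl⟩
  have hz : ∀ ε : ℝ, 0 < ε → LogBound (1 + ε) (fun p => ‖z p‖ ^ 2) := by
    intro ε hε
    have h1 := cusp_logBound hn hN hc ε hε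
    have e1 : (fun p : Nat.Primes => ‖z p‖ ^ 2) = fun p : Nat.Primes =>
        if (p : ℕ) ∣ N then 0 else ‖(P p).coeff (n - 1)‖ ^ 2 := by
      funext p
      rw [hzdef]
      dsimp only
      split_ifs
      · rw [norm_zero, zero_pow two_ne_zero]
      · rw [norm_neg]
    rw [e1]
    exact h1
  obtain ⟨U, hU, R, k1, k2, k3, ε₀, hε₀, hloc⟩ := fam_l Φ hz hn (fun ε hε => by
    obtain ⟨T, hT, K, _, _, s, O, A, _, ι, r, hk, hr⟩ := h ε hε
    refine ⟨T, hT, K, O, A, inferInstance, inferInstance, inferInstance, inferInstance, s,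
      O.subtype, ι, (Units.coeHom _).comp r, ?_⟩
    rw [hzdef]
    exact near_of_attached Φ hΦ hN hk hr)
  have hfin : Finite (GQ ⧸ U) := Subgroup.quotient_finite_of_isOpen U k1
  let R' : GQ →* GL (Fin n) ℂ := (R.comp (QuotientGroup.mk' U)).toHomUnits
  have hR' : ∀ g, (R' g).val = R (QuotientGroup.mk g) := fun g => rfl
  refine ⟨R', fun W hW => ?_, ?_, ?_, fun g hgV => ?_⟩
  · refine k2 W fun g w hw => ?_
    obtain ⟨g, rfl⟩ := QuotientGroup.mk_surjective g
    exact hW g w hw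
  · refine Subgroup.isOpen_mono (H₁ := U) (fun g hg => MonoidHom.mem_ker.2 (Units.ext ?_)) k1
    rw [hR', (QuotientGroup.eq_one_iff g).2 hg, map_one]
    rfl
  · refine dens_union k3 (dens_level hN) ?_
    intro p hp
    by_contra hcon
    rw [Set.mem_union, not_or] at hcon
    have e1 : z p = (R (QuotientGroup.mk (Φ.frob p))).trace := not_not.1 hcon.1
    have e2 : ¬ (p : ℕ) ∣ N := hcon.2
    apply hp
    rw [hR', ← hΦ, ← e1, hzdef]
    dsimp only
    rw [if_neg e2]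
  -- the local condition
  obtain ⟨hPm, hPd⟩ := hC g hgV
  obtain ⟨DC, hDC⟩ := Pool.Agent.GalMaass.exists_matrix_charpoly (C g) hPm n hPd
  obtain ⟨T, hT, K, _, _, s, O, A, _, ι, r, hk, hr⟩ := h ε₀ hε₀
  obtain ⟨-, l2⟩ := hloc T hT s O.subtype ι ((Units.coeHom _).comp r) (by
    rw [hzdef]
    exact near_of_attached Φ hΦ hN hk hr)
  obtain ⟨Q, hQ, hQh, hch⟩ := hr.2.2 g hgV
  have hinj : Function.Injective (s.comp O.subtype) :=
    s.injective.comp Subtype.coe_injective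
  have hQm : Q.Monic := by
    refine Polynomial.monic_of_injective hinj ?_
    rw [hQ]
    exact hPm
  have hQd : Q.natDegree = n := by
    rw [← Polynomial.natDegree_map_eq_of_injective hinj, hQ, hPd]
  obtain ⟨D, hD, hDh⟩ := exists_companion_height O.subtype (T := T) (n := n) (by omega)
    (by omega) Q hQm hQd (fun k => by
      unfold Pool.Agent.OneL74.HB
      rw [pow_one]
      exact hQh k)
  have hDD : (D.map (s.comp O.subtype)).charpoly = DC.charpoly := by
    rw [Matrix.charpoly_map, hD, hQ, hDC]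
  refine Eq.trans ?_ hDC
  refine Pool.Agent.DZ74.charpoly_eq_of_traces _ _ fun k _ hkn => ?_
  have e1 : s (O.subtype ((D ^ k).trace)) = (DC ^ k).trace := by
    rw [← Pool.Agent.GalMaass.trace_pow_congr _ _ hDD k,
      Pool.Agent.Crit74.map_pow_trace (s.comp O.subtype)]
    rfl
  have e2 : ι ((D ^ k).trace) = ((Units.coeHom _).comp r (g ^ k)).trace := by
    have k9 : (r g).val.charpoly = (D.map ι).charpoly := by
      rw [hch, Matrix.charpoly_map, hD]
    rw [← Pool.Agent.Crit74.map_pow_trace, Pool.Agent.GalMaass.trace_pow_congr _ _ k9.symm k]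
    show _ = (r (g ^ k)).val.trace
    rw [map_pow, Units.val_pow_eq_pow_val]
  have e3 := l2 (g ^ k) _ _ e2 (hDh k) (ine_c hn hkn)
  have e4 : (R' g).val ^ k = (R' (g ^ k)).val := by
    rw [map_pow, Units.val_pow_eq_pow_val]
  rw [e4, hR', e3, e1]

end Pool.Agent.CritH74
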