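import Pool.Agent.W_7742l_h74.LSet
import Pool.Agent.W_7742j_h74.JBda

/-! # First properties of `b` (compare `W_7742j_h74/JBda.lean`) -/

set_option autoImplicit false

noncomputable section

namespace Pool.Agent.OneL74

open NumberField Height Pool.Agent.OneI74
open Pool.Agent.OneJ74 (h₁ h₂ support sup_bound)

variable {K O A Γ : Type} [Field K] [NumberField K] [CommRing O] [CommRing A] [Group Γ]
  [Fintype Γ] {n : ℕ} {T E : ℕ} {M : ℝ} {s₀ : K →+* ℂ} {j : O →+* K}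
  {ι : O →+* A} {r : Γ →* Matrix (Fin n) (Fin n) A} {f : Γ → O} {ρ : ℕ} {k x : Fin ρ → Γ}
  {b : Γ → K}

/-- The factorization of `s₀ ∘ b`. -/
theorem BDat5.fac_map (H : BDat5 T E M s₀ j ι r f ρ k x b) (u v : Γ) :
    s₀ (b (u * v)) =
      ∑ i, (∑ l, s₀ (b (u * x l)) * s₀ ((mat j f k x)⁻¹ l i)) * s₀ (b (k i * v)) := by
  rw [H.hfac u v, map_sum]
  refine Finset.sum_congr rfl fun i _ => ?_
  rw [map_sum, Finset.sum_mul]
  refine Finset.sum_congr rfl fun l _ => ?_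
  rw [map_mul, map_mul]

theorem BDat5.rho_lt (H : BDat5 T E M s₀ j ι r f ρ k x b) : 2 * ρ < h₁ n := by
  have h1 := H.hρ
  unfold h₁
  have h2 : 2 * ρ ≤ 2 * n ^ 2 := Nat.mul_le_mul_left 2 h1
  have h3 : 2 * n ^ 2 * 1 ≤ 2 * n ^ 2 * (n ^ 2 + 1) := Nat.mul_le_mul_left _ (by omega)
  omega

theorem BDat5.comm (H : BDat5 T E M s₀ j ι r f ρ k x b) (u v : Γ) : b (u * v) = b (v * u) := by
  classical
  by_contra hne
  have hg : s₀ (b (u * v) - b (v * u)) ≠ 0 := by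
    intro h0
    exact hne (sub_eq_zero.1 ((map_eq_zero s₀).1 h0))
  have hfac : ∀ u' v' : Γ, s₀ (b (u' * v' * v) - b (v * (u' * v'))) = ∑ i : Fin (ρ + ρ),
      (Fin.append
        (fun (i : Fin ρ) (w : Γ) => ∑ l, s₀ (b (w * x l)) * s₀ ((mat j f k x)⁻¹ l i))
        (fun (i : Fin ρ) (w : Γ) => ∑ l, s₀ (b (v * w * x l)) * s₀ ((mat j f k x)⁻¹ l i)) i) u' *
      (Fin.append (fun (i : Fin ρ) (w : Γ) => s₀ (b (k i * (w * v))))
        (fun (i : Fin ρ) (w : Γ) => - s₀ (b (k i * w))) i) v' := by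
    intro u' v'
    rw [Fin.sum_univ_add]
    simp only [Fin.append_left, Fin.append_right]
    rw [map_sub, mul_assoc u' v' v, H.fac_map u' (v' * v), ← mul_assoc v u' v',
      H.fac_map (v * u') v', sub_eq_add_neg, ← Finset.sum_neg_distrib]
    congr 1
    refine Finset.sum_congr rfl fun i _ => ?_
    rw [mul_neg]
  have h1 := support (fun w => s₀ (b (w * v) - b (v * w))) _ _ hfac (g := u) hg
  have h2 : Nat.card {w : Γ // s₀ (b (w * v) - b (v * w)) ≠ 0} ≤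
      Nat.card {w : Γ // w ∉ S j s₀ f T M} := by
    refine Nat.card_le_card_of_injective
      (fun w => (⟨w.1 * v, fun hS => w.2 ?_⟩ : {w : Γ // w ∉ S j s₀ f T M})) ?_
    · have hS' : v * w.1 ∈ S j s₀ f T M := by
        refine ⟨?_, ?_⟩
        · rw [← H.set5.hcomm w.1 v]
          exact hS.1
        · rw [← H.set5.hcomm w.1 v]
          exact hS.2
      rw [H.hb _ hS, H.hb _ hS', H.set5.hcomm w.1 v, sub_self, map_zero]
    · intro w w' hww
      have h3 : w.1 * v = w'.1 * v := congrArg Subtype.val hww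
      exact Subtype.ext (mul_right_cancel h3)
  have h3 := H.set5.card1
  have h4 := H.rho_lt
  have h5 : 0 < Nat.card Γ := Nat.card_pos
  have h6 : Nat.card Γ ≤ (ρ + ρ) * Nat.card {w : Γ // w ∉ S j s₀ f T M} :=
    h1.trans (Nat.mul_le_mul_left _ h2)
  have h7 : 0 < Nat.card {w : Γ // w ∉ S j s₀ f T M} := by
    rcases Nat.eq_zero_or_pos (Nat.card {w : Γ // w ∉ S j s₀ f T M}) with h0 | h0
    · rw [h0, mul_zero] at h6
      omega
    · exact h0
  have h8 : (ρ + ρ) * Nat.card {w : Γ // w ∉ S j s₀ f T M} <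
      h₁ n * Nat.card {w : Γ // w ∉ S j s₀ f T M} :=
    Nat.mul_lt_mul_of_pos_right (by omega) h7
  omega

theorem BDat5.sup (H : BDat5 T E M s₀ j ι r f ρ k x b) (g : Γ) :
    ‖s₀ (b g)‖ ^ 2 * Fintype.card Γ ≤ ρ * ∑ y, ‖s₀ (b y)‖ ^ 2 :=
  sup_bound (fun w => s₀ (b w)) _ _ (fun u v => H.fac_map u v) g

/-- The mean square at `s₀`: the elements outside `S` contribute at most `ρ / h₁` of the total. -/
theorem BDat5.total0 (H : BDat5 T E M s₀ j ι r f ρ k x b) :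
    (∑ y, ‖s₀ (b y)‖ ^ 2) * (h₁ n - ρ) ≤
      (1 + 1 / (4 * (n : ℝ) ^ 2)) * Fintype.card Γ * h₁ n := by
  classical
  have hN : (0 : ℝ) < Fintype.card Γ := Nat.cast_pos.2 Fintype.card_pos
  have hen := H.set5.hE0 (fun y => if y ∈ S j s₀ f T M then ‖s₀ (j (f y))‖ ^ 2 else 0)
    (fun y => by
      split_ifs
      · exact le_rfl
      · positivity)
    (fun y hy => by
      rw [if_neg hy])
  have hcc : ((h₁ n : ℕ) : ℝ) * (Nat.card {x // x ∉ S j s₀ f T M} : ℝ) ≤ Fintype.card Γ := by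
    have h1 := H.set5.card1
    rw [Nat.card_eq_fintype_card (α := Γ)] at h1
    exact_mod_cast h1
  have hsplit : ∑ y, ‖s₀ (b y)‖ ^ 2 =
      ∑ y, (if y ∈ S j s₀ f T M then ‖s₀ (j (f y))‖ ^ 2 else 0) +
      ∑ y, (if y ∈ S j s₀ f T M then 0 else ‖s₀ (b y)‖ ^ 2) := by
    rw [← Finset.sum_add_distrib]
    refine Finset.sum_congr rfl fun y _ => ?_
    by_cases hy : y ∈ S j s₀ f T M
    · rw [if_pos hy, if_pos hy, add_zero, H.hb y hy]
    · rw [if_neg hy, if_neg hy, zero_add]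
  have hout : (∑ y, (if y ∈ S j s₀ f T M then 0 else ‖s₀ (b y)‖ ^ 2)) * Fintype.card Γ ≤
      (Nat.card {x // x ∉ S j s₀ f T M} : ℝ) * (ρ * ∑ y, ‖s₀ (b y)‖ ^ 2) := by
    have h1 : (Nat.card {x // x ∉ S j s₀ f T M} : ℝ) * (ρ * ∑ y, ‖s₀ (b y)‖ ^ 2) =
        ∑ y, (if y ∈ S j s₀ f T M then 0 else ρ * ∑ y, ‖s₀ (b y)‖ ^ 2) := by
      have h2 : ∀ y, (if y ∈ S j s₀ f T M then (0 : ℝ) else ρ * ∑ y, ‖s₀ (b y)‖ ^ 2) =
          if y ∉ S j s₀ f T M then ρ * ∑ y, ‖s₀ (b y)‖ ^ 2 else 0 := fun y => by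
        by_cases hy : y ∈ S j s₀ f T M
        · rw [if_pos hy, if_neg (not_not.2 hy)]
        · rw [if_neg hy, if_pos hy]
      simp only [h2]
      rw [← Finset.sum_filter, Finset.sum_const, nsmul_eq_mul, Nat.card_eq_fintype_card,
        Fintype.card_subtype]
    rw [h1, Finset.sum_mul]
    refine Finset.sum_le_sum fun y _ => ?_
    by_cases hy : y ∈ S j s₀ f T M
    · rw [if_pos hy, if_pos hy, zero_mul]
    · rw [if_neg hy, if_neg hy]
      exact H.sup y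
  have hh : (0 : ℝ) < ((h₁ n : ℕ) : ℝ) := by
    have h1 := H.rho_lt
    exact_mod_cast (by omega : 0 < h₁ n)
  have hm0 : (0 : ℝ) ≤ (Nat.card {x // x ∉ S j s₀ f T M} : ℝ) := Nat.cast_nonneg _
  have hE0 : (0 : ℝ) ≤ ∑ y, ‖s₀ (b y)‖ ^ 2 := Finset.sum_nonneg fun _ _ => sq_nonneg _
  have hρ0 : (0 : ℝ) ≤ ρ := Nat.cast_nonneg _
  generalize (Nat.card {x // x ∉ S j s₀ f T M} : ℝ) = m at hcc hout hm0
  generalize ((h₁ n : ℕ) : ℝ) = h at hcc hh ⊢
  generalize ∑ y, (if y ∈ S j s₀ f T M then ‖s₀ (j (f y))‖ ^ 2 else 0) = A at hen hsplit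
  generalize ∑ y, (if y ∈ S j s₀ f T M then 0 else ‖s₀ (b y)‖ ^ 2) = B at hout hsplit
  generalize ∑ y, ‖s₀ (b y)‖ ^ 2 = E' at hsplit hout hE0 ⊢
  generalize 1 + 1 / (4 * (n : ℝ) ^ 2) = M' at *
  generalize (Fintype.card Γ : ℝ) = N at *
  generalize (ρ : ℝ) = t at *
  -- `B h ≤ t E`
  have h1 : B * h ≤ t * E' := by
    have h2 : (B * h) * N ≤ (t * E') * N := by
      calc (B * h) * N = (B * N) * h := by ring
        _ ≤ (m * (t * E')) * h := mul_le_mul_of_nonneg_right hout hh.le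
        _ = (h * m) * (t * E') := by ring
        _ ≤ N * (t * E') := mul_le_mul_of_nonneg_right hcc (mul_nonneg hρ0 hE0)
        _ = (t * E') * N := by ring
    exact le_of_mul_le_mul_right h2 hN
  have h3 : A * h ≤ M' * N * h := mul_le_mul_of_nonneg_right hen hh.le
  nlinarith

theorem BDat5.f_one (H : BDat5 T E M s₀ j ι r f ρ k x b) :
    f 1 = n ∧ (1 : Γ) ∈ S j s₀ f T M := by
  have htr : ι (n : O) = (r 1).trace := by
    rw [map_natCast, map_one, Matrix.trace_one, Fintype.card_fin]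
  have hc : HB T 1 (j (n : O)) := by
    rw [map_natCast]
    refine HB.natCast H.set5.cst.one_le ?_
    rw [pow_one]
    have := H.set5.cst.hnT
    omega
  have h1 := H.set5.hmin 1 n htr hc
  refine ⟨h1, ?_, ?_⟩
  · rw [h1]
    exact hc
  · rw [h1, map_natCast, map_natCast, Complex.norm_natCast]
    exact H.set5.cst.hM

theorem BDat5.b_one (H : BDat5 T E M s₀ j ι r f ρ k x b) : b 1 = n := by
  rw [H.hb 1 H.f_one.2, H.f_one.1, map_natCast]

theorem BDat5.rank_eq (H : BDat5 T E M s₀ j ι r f ρ k x b) : ρ = n ^ 2 := by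
  have hN : (0 : ℝ) < Fintype.card Γ := Nat.cast_pos.2 Fintype.card_pos
  have hn := H.set5.cst.hn
  have hρ := H.hρ
  by_contra hne
  have hlt : ρ + 1 ≤ n ^ 2 := by omega
  have h1 := H.sup 1
  rw [H.b_one, map_natCast, Complex.norm_natCast] at h1
  have h2 := H.total0
  have hE0 : (0 : ℝ) ≤ ∑ y, ‖s₀ (b y)‖ ^ 2 := Finset.sum_nonneg fun _ _ => sq_nonneg _
  have hh : ((h₁ n : ℕ) : ℝ) = 2 * (n : ℝ) ^ 2 * ((n : ℝ) ^ 2 + 1) + 1 := by
    unfold h₁
    push_cast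
    ring
  have hlt' : (ρ : ℝ) + 1 ≤ (n : ℝ) ^ 2 := by exact_mod_cast hlt
  have hρ0 : (0 : ℝ) ≤ ρ := Nat.cast_nonneg _
  rw [hh] at h2
  have hm1 : (1 : ℝ) ≤ (n : ℝ) ^ 2 := by
    have : (1 : ℝ) ≤ n := by exact_mod_cast hn
    nlinarith
  generalize ∑ y, ‖s₀ (b y)‖ ^ 2 = E' at *
  generalize (Fintype.card Γ : ℝ) = N at *
  generalize (n : ℝ) ^ 2 = m at *
  generalize (ρ : ℝ) = t at *
  -- `m N ≤ t E`, `E (h - t) ≤ (1 + 1 / (4 m)) N h`
  have hm0 : 0 < m := by linarith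
  have h3 : (m * N) * ((2 * m * (m + 1) + 1) - t) ≤
      t * ((1 + 1 / (4 * m)) * N * (2 * m * (m + 1) + 1)) := by
    calc (m * N) * ((2 * m * (m + 1) + 1) - t) ≤ (t * E') * ((2 * m * (m + 1) + 1) - t) :=
          mul_le_mul_of_nonneg_right h1 (by nlinarith)
      _ = t * (E' * ((2 * m * (m + 1) + 1) - t)) := by ring
      _ ≤ _ := mul_le_mul_of_nonneg_left h2 hρ0
  have h4 : m * ((2 * m * (m + 1) + 1) - t) ≤ t * ((1 + 1 / (4 * m)) * (2 * m * (m + 1) + 1)) := by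
    have h5 : (m * ((2 * m * (m + 1) + 1) - t)) * N ≤
        (t * ((1 + 1 / (4 * m)) * (2 * m * (m + 1) + 1))) * N := by
      refine le_trans (le_of_eq ?_) (h3.trans (le_of_eq ?_)) <;> ring
    exact le_of_mul_le_mul_right h5 hN
  have h6 : t * ((1 + 1 / (4 * m)) * (2 * m * (m + 1) + 1)) * (4 * m) =
      t * ((4 * m + 1) * (2 * m * (m + 1) + 1)) := by
    field_simp
  have h7 : m * ((2 * m * (m + 1) + 1) - t) * (4 * m) ≤
      t * ((4 * m + 1) * (2 * m * (m + 1) + 1)) := by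
    rw [← h6]
    exact mul_le_mul_of_nonneg_right h4 (by linarith)
  -- replace `t` by `m - 1`
  have h8 : m * ((2 * m * (m + 1) + 1) - (m - 1)) * (4 * m) ≤
      (m - 1) * ((4 * m + 1) * (2 * m * (m + 1) + 1)) := by
    have h9 : m * ((2 * m * (m + 1) + 1) - (m - 1)) * (4 * m) ≤
        m * ((2 * m * (m + 1) + 1) - t) * (4 * m) := by
      have : (0 : ℝ) ≤ m * (4 * m) := by positivity
      nlinarith
    have h10 : t * ((4 * m + 1) * (2 * m * (m + 1) + 1)) ≤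
        (m - 1) * ((4 * m + 1) * (2 * m * (m + 1) + 1)) :=
      mul_le_mul_of_nonneg_right (by linarith) (by positivity)
    linarith
  nlinarith [mul_pos hm0 hm0, mul_pos (mul_pos hm0 hm0) hm0]

/-- The mean square at `s₀` is less than two. -/
theorem BDat5.lt_two (H : BDat5 T E M s₀ j ι r f ρ k x b) :
    ∑ y, ‖s₀ (b y)‖ ^ 2 < 2 * Fintype.card Γ := by
  have hN : (0 : ℝ) < Fintype.card Γ := Nat.cast_pos.2 Fintype.card_pos
  have hn := H.set5.cst.hn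
  have hρ := H.rank_eq
  have h2 := H.total0
  have hh : ((h₁ n : ℕ) : ℝ) = 2 * (n : ℝ) ^ 2 * ((n : ℝ) ^ 2 + 1) + 1 := by
    unfold h₁
    push_cast
    ring
  have hρ' : (ρ : ℝ) = (n : ℝ) ^ 2 := by exact_mod_cast hρ
  rw [hh, hρ'] at h2
  have hm1 : (1 : ℝ) ≤ (n : ℝ) ^ 2 := by
    have : (1 : ℝ) ≤ n := by exact_mod_cast hn
    nlinarith
  generalize ∑ y, ‖s₀ (b y)‖ ^ 2 = E' at *
  generalize (Fintype.card Γ : ℝ) = N at *
  generalize (n : ℝ) ^ 2 = m at *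
  by_contra hcon
  have h3 : 2 * N ≤ E' := not_lt.1 hcon
  have h4 : (1 : ℝ) / (4 * m) ≤ 1 / 4 := by
    rw [div_le_div_iff₀ (by linarith) (by norm_num)]
    linarith
  have h5 : (1 + 1 / (4 * m)) * N * (2 * m * (m + 1) + 1) ≤
      (5 / 4) * N * (2 * m * (m + 1) + 1) := by
    refine mul_le_mul_of_nonneg_right (mul_le_mul_of_nonneg_right (by linarith) hN.le) ?_
    nlinarith
  have h6 : (2 * N) * ((2 * m * (m + 1) + 1) - m) ≤ E' * ((2 * m * (m + 1) + 1) - m) :=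
    mul_le_mul_of_nonneg_right h3 (by nlinarith)
  nlinarith [mul_pos hN (by linarith : (0 : ℝ) < m)]

end Pool.Agent.OneL74
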