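import Pool.Agent.W_7742l_h74.LBda
import Pool.Agent.W_7742j_h74.JCor

/-! # The lift is `b` up to the minor (compare `W_7742j_h74/JCor.lean`) -/

set_option autoImplicit false

noncomputable section

namespace Pool.Agent.OneL74

open NumberField Height Pool.Agent.OneI74
open Pool.Agent.OneJ74 (h₁ h₂ JCor_border JExt_avoid)

variable {K O A Γ : Type} [Field K] [NumberField K] [CommRing O] [CommRing A] [Group Γ]
  [Fintype Γ] {n : ℕ} {T E : ℕ} {M : ℝ} {s₀ : K →+* ℂ} {j : O →+* K}
  {ι : O →+* A} {r : Γ →* Matrix (Fin n) (Fin n) A} {f : Γ → O} {ρ : ℕ} {k x : Fin ρ → Γ}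
  {b : Γ → K}

theorem sum_exp (m h : ℕ) : ∑ i : Fin (m + 1), ∑ l : Fin (m + 1),
    (1 + if i = Fin.last m ∧ l = Fin.last m then h else 0) = (m + 1) ^ 2 + h := by
  simp only [Finset.sum_add_distrib, Finset.sum_const, Finset.card_univ, Fintype.card_fin,
    smul_eq_mul, mul_one]
  have h1 : ∑ i : Fin (m + 1), ∑ l : Fin (m + 1),
      (if i = Fin.last m ∧ l = Fin.last m then h else 0) = h := by
    rw [Finset.sum_eq_single (Fin.last m)]
    · rw [Finset.sum_eq_single (Fin.last m)]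
      · rw [if_pos ⟨rfl, rfl⟩]
      · intro l _ hl
        rw [if_neg fun h => hl h.2]
      · intro h
        exact absurd (Finset.mem_univ _) h
    · intro i _ hi
      refine Finset.sum_eq_zero fun l _ => ?_
      rw [if_neg fun h => hi h.1]
    · intro h
      exact absurd (Finset.mem_univ _) h
  rw [h1]
  ring

theorem BDat5.cor (H : BDat5 T E M s₀ j ι r f ρ k x b) (g : Γ) (c : O) (hc : ι c = (r g).trace)
    (h : ℕ) (hh : HB T h (j c)) (hE : 2 * (n ^ 2 + 1) + (n ^ 2 + 1) ^ 2 + h < E) : j c = b g := by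
  classical
  obtain rfl : ρ = n ^ 2 := H.rank_eq
  set m := Nat.card {y // y ∉ S j s₀ f T M} with hm
  have hcard : Fintype.card (Fin (n ^ 2) ⊕ Fin (n ^ 2)) * m < Nat.card Γ := by
    have e1 := H.set5.card1
    rw [Fintype.card_sum, Fintype.card_fin]
    rcases Nat.eq_zero_or_pos m with h0 | h0
    · rw [h0, mul_zero]
      exact Nat.card_pos
    · refine lt_of_lt_of_le ?_ e1
      refine Nat.mul_lt_mul_of_pos_right ?_ h0
      unfold h₁
      nlinarith [Nat.zero_le (n ^ 2)]
  obtain ⟨u, hu⟩ := JExt_avoid (S j s₀ f T M) (ι := Fin (n ^ 2) ⊕ Fin (n ^ 2))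
    (Sum.elim (fun l z => z * x l) (fun i z => k i * (z⁻¹ * g)))
    (by
      rintro (l | i) z z' hzz
      · exact mul_right_cancel hzz
      · exact inv_injective (mul_right_cancel (mul_left_cancel hzz))) hcard
  have hu1 : ∀ l, u * x l ∈ S j s₀ f T M := fun l => hu (Sum.inl l)
  have hu2 : ∀ i, k i * (u⁻¹ * g) ∈ S j s₀ f T M := fun i => hu (Sum.inr i)
  obtain ⟨k', hk'⟩ : ∃ k' : Fin (n ^ 2 + 1) → Γ, k' = Fin.snoc k u := ⟨_, rfl⟩
  obtain ⟨x', hx'⟩ : ∃ x' : Fin (n ^ 2 + 1) → Γ, x' = Fin.snoc x (u⁻¹ * g) := ⟨_, rfl⟩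
  have hk1 : ∀ i, k' (Fin.castSucc i) = k i := fun i => by rw [hk', Fin.snoc_castSucc]
  have hk2 : k' (Fin.last _) = u := by rw [hk', Fin.snoc_last]
  have hx1 : ∀ i, x' (Fin.castSucc i) = x i := fun i => by rw [hx', Fin.snoc_castSucc]
  have hx2 : x' (Fin.last _) = u⁻¹ * g := by rw [hx', Fin.snoc_last]
  have hS' : ∀ i l, ¬ (i = Fin.last _ ∧ l = Fin.last _) → k' i * x' l ∈ S j s₀ f T M := by
    intro i l
    refine Fin.lastCases ?_ (fun i => ?_) i
    · refine Fin.lastCases ?_ (fun l => ?_) l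
      · intro h
        exact absurd ⟨rfl, rfl⟩ h
      · intro _
        rw [hk2, hx1]
        exact hu1 l
    · refine Fin.lastCases ?_ (fun l => ?_) l
      · intro _
        rw [hk1, hx2]
        exact hu2 i
      · intro _
        rw [hk1, hx1]
        exact H.hkx i l
  obtain ⟨B, hB⟩ : ∃ B : Matrix (Fin (n ^ 2 + 1)) (Fin (n ^ 2 + 1)) O, B = Matrix.of fun i l =>
    if i = Fin.last _ ∧ l = Fin.last _ then c else f (k' i * x' l) := ⟨_, rfl⟩
  have hne : ∀ i : Fin (n ^ 2), Fin.castSucc i ≠ Fin.last (n ^ 2) := fun i =>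
    (Fin.castSucc_lt_last i).ne
  have hB1 : ∀ i l, B (Fin.castSucc i) (Fin.castSucc l) = f (k i * x l) := by
    intro i l
    rw [hB, Matrix.of_apply, if_neg (fun h => hne i h.1), hk1, hx1]
  have hB2 : ∀ l, B (Fin.last _) (Fin.castSucc l) = f (u * x l) := by
    intro l
    rw [hB, Matrix.of_apply, if_neg (fun h => hne l h.2), hk2, hx1]
  have hB3 : ∀ i, B (Fin.castSucc i) (Fin.last _) = f (k i * (u⁻¹ * g)) := by
    intro i
    rw [hB, Matrix.of_apply, if_neg (fun h => hne i h.1), hk1, hx2]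
  have hB4 : B (Fin.last _) (Fin.last _) = c := by
    rw [hB, Matrix.of_apply, if_pos ⟨rfl, rfl⟩]
  have hker : ι B.det = 0 := by
    rw [RingHom.map_det]
    have h4 : ι.mapMatrix B = Matrix.of fun i l => (r (k' i) * r (x' l)).trace := by
      ext i l
      rw [RingHom.mapMatrix_apply, Matrix.map_apply, hB, Matrix.of_apply, Matrix.of_apply,
        ← map_mul]
      split_ifs with h
      · rw [h.1, h.2, hk2, hx2, hc, mul_inv_cancel_left]
      · rw [H.set5.hf _ (hS' i l h)]
    rw [h4]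
    exact det_gram (by omega) _ _
  have h5 : j B.det = (B.map j).det := by
    rw [← RingHom.mapMatrix_apply, ← RingHom.map_det]
  have hT1 := H.set5.cst.one_le
  have hdet := HB.det (factorial_bound H.set5.cst.hT)
    (fun i l => 1 + if i = Fin.last (n ^ 2) ∧ l = Fin.last (n ^ 2) then h else 0) (B.map j)
    (fun i l => by
      rw [Matrix.map_apply, hB, Matrix.of_apply]
      split_ifs with hil
      · exact hh.mono hT1 (by omega)
      · exact (hS' i l hil).1)
  rw [sum_exp, ← h5] at hdet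
  have hz : B.det = 0 := H.set5.eq_zero (by omega) hker hdet
  rw [hz, map_zero] at h5
  have h6 := JCor_border (mat j f k x) H.hdet (fun l => j (f (u * x l)))
    (fun i => j (f (k i * (u⁻¹ * g)))) (j c) (B.map j)
    (fun i l => by rw [Matrix.map_apply, hB1]; rfl)
    (fun l => by rw [Matrix.map_apply, hB2])
    (fun i => by rw [Matrix.map_apply, hB3])
    (by rw [Matrix.map_apply, hB4])
  rw [← h5] at h6
  have h7 := H.hfac u (u⁻¹ * g)
  rw [mul_inv_cancel_left] at h7
  rcases mul_eq_zero.1 h6.symm with h8 | h8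
  · exact absurd h8 H.hdet
  · rw [sub_eq_zero] at h8
    rw [h8, h7]
    refine Finset.sum_congr rfl fun i _ => Finset.sum_congr rfl fun l _ => ?_
    rw [H.hb _ (hu1 l), H.hb _ (hu2 i)]

end Pool.Agent.OneL74
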