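import Pool.Agent.W_7742l_h74.LPol
import Pool.Agent.W_7742n_h74.CChr

/-! # The finite theorem (compare `W_7742j_h74/JFin.lean`) -/

set_option autoImplicit false

noncomputable section

open ComplexConjugate

namespace Pool.Agent.OneL74

open NumberField Height Pool.Agent.OneI74 Pool.Agent.GalSide
open Pool.Agent.OneJ74 (h₁ h₂)
open Pool.Agent.OneN74 (sum_sq)

variable {K O A Γ : Type} [Field K] [NumberField K] [CommRing O] [CommRing A] [Group Γ]
  [Fintype Γ] {n : ℕ} {T E : ℕ} {M : ℝ} {s₀ : K →+* ℂ} {j : O →+* K}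
  {ι : O →+* A} {r : Γ →* Matrix (Fin n) (Fin n) A} {f : Γ → O}

theorem Set5.finite_main (H : Set5 T E M s₀ j ι r f) :
    ∃ R : Γ →* Matrix (Fin n) (Fin n) ℂ,
      (∀ W : Submodule ℂ (Fin n → ℂ), (∀ g, ∀ w ∈ W, (R g).mulVec w ∈ W) → W = ⊥ ∨ W = ⊤) ∧
      ∀ g c h, ι c = (r g).trace → HB T h (j c) → 2 * (n ^ 2 + 1) + (n ^ 2 + 1) ^ 2 + h < E →
        (R g).trace = s₀ (j c) := by
  classical
  obtain ⟨ρ, k, x, b, H'⟩ := H.exists_bdat
  obtain rfl := H'.rank_eq
  obtain ⟨R, hR⟩ : ∃ R : Γ →* Matrix (Fin n) (Fin n) ℂ, ∀ g, (R g).trace = s₀ (b g) := by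
    refine exists_rep (fun g => s₀ (b g)) (fun u v => by rw [H'.comm]) ?_ ?_
    · show s₀ (b 1) = n
      rw [H'.b_one, map_natCast]
    · intro y
      have h1 := pol_map s₀ b (n + 1) y
      rw [H'.pol_all y, map_zero] at h1
      exact h1.symm
  obtain ⟨m, hm⟩ := sum_sq R
  have hm' := hm
  simp only [hR] at hm
  have hlt := H'.lt_two
  rw [hm] at hlt
  have hG : (0 : ℝ) < Fintype.card Γ := by exact_mod_cast Fintype.card_pos
  have hm1 : m ≤ 1 := by
    have h1 : (m : ℝ) < 2 := by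
      by_contra h2
      have h3 := not_lt.1 h2
      nlinarith
    have h4 : m < 2 := by exact_mod_cast h1
    omega
  refine ⟨R, fun W hW => ?_, fun g c h hc hh hE => ?_⟩
  · refine eq_bot_or_eq_top R ?_ W hW
    rw [hm']
    have h1 : (m : ℝ) ≤ 1 := by exact_mod_cast hm1
    nlinarith
  · rw [hR, H'.cor g c hc h hh hE]

end Pool.Agent.OneL74
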