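import Pool.Agent.W_7742l_h74.LFin
import Pool.Agent.W_7742u_h74.UUpl

/-! # One representation with lifts of the trace of small height up to a set of small upper density -/

set_option autoImplicit false

noncomputable section

open Filter Topology NumberField

namespace Pool.Agent.OneL74

open Height Pool.Agent.GalSide Pool.Agent.OneI74
open Pool.Agent.OneJ74 (h₁ h₂)
open Pool.Agent.OneN74 (UpLE energy_gen)
open Pool.Agent.OneU74 (logBound_ind UpLE_mono)

theorem logBound_comb {a b C D : ℝ} (ha : 0 ≤ a) (hb : 0 ≤ b) {f g : Nat.Primes → ℝ}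
    (hf : ∀ ε : ℝ, 0 < ε → LogBound (C + ε) f) (hg : ∀ ε : ℝ, 0 < ε → LogBound (D + ε) g)
    (ε : ℝ) (hε : 0 < ε) : LogBound ((a * C + b * D) + ε) (fun p => a * f p + b * g p) := by
  obtain ⟨η, hη⟩ : ∃ η : ℝ, η = ε / (a + b + 1) := ⟨_, rfl⟩
  have hη0 : 0 < η := by rw [hη]; positivity
  filter_upwards [hf η hη0, hg η hη0, Chb_log.eventually_gt_atTop 0] with s h1 h2 hL
  have h3 := (h1.1.hasSum.mul_left a).add (h2.1.hasSum.mul_left b)
  have e1 : (fun p : Nat.Primes => (a * f p + b * g p) * ((p : ℕ) : ℝ) ^ (-s)) =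
      fun p : Nat.Primes => a * (f p * ((p : ℕ) : ℝ) ^ (-s)) +
        b * (g p * ((p : ℕ) : ℝ) ^ (-s)) := by
    funext p
    ring
  rw [e1]
  refine ⟨h3.summable, ?_⟩
  rw [h3.tsum_eq]
  have h4 := mul_le_mul_of_nonneg_left h1.2 ha
  have h5 := mul_le_mul_of_nonneg_left h2.2 hb
  have h6 : a * η + b * η ≤ ε := by
    have : (a + b + 1) * η = ε := by
      rw [hη]
      field_simp
    nlinarith
  calc _ ≤ a * ((C + η) * Real.log (1 / (s - 1))) + b * ((D + η) * Real.log (1 / (s - 1))) := by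
        linarith
    _ = ((a * C + b * D) + (a * η + b * η)) * Real.log (1 / (s - 1)) := by ring
    _ ≤ _ := mul_le_mul_of_nonneg_right (by linarith) hL.le

variable {G : Type} [Group G] [TopologicalSpace G] [IsTopologicalGroup G] [CompactSpace G]

theorem main_l (Φ : FrobeniusData G) {z : Nat.Primes → ℂ}
    (hz : ∀ ε : ℝ, 0 < ε → LogBound (1 + ε) (fun p => ‖z p‖ ^ 2))
    {n T E : ℕ} {M : ℝ} (hc : Cst n T E M) {X : Set Nat.Primes} {ε : ℝ} (hX : UpLE X ε)
    (he1 : h₁ n * (ε + 1 / M) ≤ 1) (he2 : h₂ n * (ε + 1 / M) ≤ 1)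
    (he3 : 4 * (n : ℝ) ^ 2 * (M * ε) ≤ 1)
    {K O A : Type} [Field K] [NumberField K] [CommRing O] [CommRing A] (s₀ : K →+* ℂ)
    (j : O →+* K) (ι : O →+* A)
    (hN : ∀ x : O, ι x = 0 → mulHeight₁ (j x) < ((T : ℝ) ^ E) ^ Module.finrank ℚ K → x = 0)
    (r : G →* Matrix (Fin n) (Fin n) A) (hr : IsOpen ({g | r g = 1} : Set G))
    (h : ∀ p ∉ X, ∃ c : O, s₀ (j c) = z p ∧ HB T 1 (j c) ∧ (r (Φ.frob p)).trace = ι c) :
    ∃ (U : Subgroup G) (_ : U.Normal) (R : G ⧸ U →* Matrix (Fin n) (Fin n) ℂ),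
      IsOpen (U : Set G) ∧ (∀ g, r g = 1 → g ∈ U) ∧
      (∀ W : Submodule ℂ (Fin n → ℂ), (∀ g, ∀ w ∈ W, (R g).mulVec w ∈ W) → W = ⊥ ∨ W = ⊤) ∧
      UpLE {p | z p ≠ (R (QuotientGroup.mk (Φ.frob p))).trace} ε ∧
      ∀ g c h, ι c = (r g).trace → HB T h (j c) → 2 * (n ^ 2 + 1) + (n ^ 2 + 1) ^ 2 + h < E →
        (R (QuotientGroup.mk g)).trace = s₀ (j c) := by
  classical
  have hn := hc.hn
  have hn0 : (0 : ℝ) < n := by exact_mod_cast hn
  have hM0 : 0 < M := lt_of_lt_of_le (by positivity) hc.hM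
  have hT2 := hc.two_le
  have hTr : (1 : ℝ) < T := by exact_mod_cast hT2
  have hU₀ : IsOpen ((r.ker : Subgroup G) : Set G) := hr
  have hfin : Finite (G ⧸ r.ker) := Subgroup.quotient_finite_of_isOpen r.ker hU₀
  let _ : Fintype (G ⧸ r.ker) := Fintype.ofFinite _
  have hG : (0 : ℝ) < Fintype.card (G ⧸ r.ker) := by exact_mod_cast Fintype.card_pos
  obtain ⟨ρ, hρ⟩ : ∃ ρ : G ⧸ r.ker →* Matrix (Fin n) (Fin n) A,
      ∀ g : G, ρ (QuotientGroup.mk g) = r g :=
    ⟨QuotientGroup.lift r.ker r le_rfl, fun g => rfl⟩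
  have hTc : ∀ x y, (ρ (x * y)).trace = (ρ (y * x)).trace := by
    intro x y
    rw [map_mul, map_mul, Matrix.trace_mul_comm]
  have hsmall : ∀ {e : ℕ} {w : O}, e < E → ι w = 0 → HB T e (j w) → w = 0 := by
    intro e w he hw hb
    refine hN w hw (lt_of_le_of_lt hb ?_)
    exact pow_lt_pow_left₀ (pow_lt_pow_right₀ hTr he) (by positivity)
      (Module.finrank_pos (R := ℚ) (M := K)).ne'
  have huniq : ∀ c c' : O, ι c = ι c' → HB T 1 (j c) → HB T 1 (j c') → c = c' := by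
    intro c c' hcc h1 h2
    rw [← sub_eq_zero]
    refine hsmall (e := 1 + 1 + 1) hc.i0 (by rw [map_sub, hcc, sub_self]) ?_
    rw [map_sub]
    exact HB.sub hT2 h1 h2
  -- the lift
  obtain ⟨F, hF1, hF2⟩ : ∃ F : A → O,
      (∀ a, HB T 1 (j (F a)) → ι (F a) = a) ∧
      ∀ a c, ι c = a → HB T 1 (j c) → F a = c := by
    refine ⟨fun a => if h : ∃ c, ι c = a ∧ HB T 1 (j c) then h.choose
      else ((T + 1 : ℕ) : O), fun a ha => ?_, fun a c hc1 hc2 => ?_⟩
    · by_cases h1 : ∃ c, ι c = a ∧ HB T 1 (j c)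
      · simp only [dif_pos h1]
        exact h1.choose_spec.1
      · simp only [dif_neg h1] at ha
        rw [map_natCast] at ha
        exact absurd ha (not_HB_natCast T)
    · have h1 : ∃ c, ι c = a ∧ HB T 1 (j c) := ⟨c, hc1, hc2⟩
      simp only [dif_pos h1]
      exact huniq _ _ (h1.choose_spec.1.trans hc1.symm) h1.choose_spec.2 hc2
  obtain ⟨f, hf⟩ : ∃ f : G ⧸ r.ker → O, ∀ x, f x = F (ρ x).trace := ⟨_, fun _ => rfl⟩
  have hfS : ∀ x, HB T 1 (j (f x)) → ι (f x) = (ρ x).trace := by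
    intro x hx
    rw [hf] at hx ⊢
    exact hF1 _ hx
  have hfm : ∀ x c, ι c = (ρ x).trace → HB T 1 (j c) → f x = c := by
    intro x c h1 h2
    rw [hf]
    exact hF2 _ _ h1 h2
  have hfc : ∀ x y, f (x * y) = f (y * x) := by
    intro x y
    rw [hf, hf, hTc]
  have hSc : ∀ (x y : G ⧸ r.ker), x * y ∈ S j s₀ f T M ↔ y * x ∈ S j s₀ f T M := by
    intro x y
    unfold S
    rw [Set.mem_setOf_eq, Set.mem_setOf_eq, hfc x y]
  have hpr : ∀ p ∉ X, HB T 1 (j (f (QuotientGroup.mk (Φ.frob p)))) ∧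
      s₀ (j (f (QuotientGroup.mk (Φ.frob p)))) = z p := by
    intro p hp
    obtain ⟨c, hc1, hc2, hc3⟩ := h p hp
    have h1 := hfm (QuotientGroup.mk (Φ.frob p)) c (by rw [hρ, hc3]) hc2
    rw [h1]
    exact ⟨hc2, hc1⟩
  have hind0 : ∀ p, 0 ≤ X.indicator (fun _ : Nat.Primes => (1 : ℝ)) p := fun p =>
    Set.indicator_nonneg (fun _ _ => zero_le_one) _
  -- the number of elements outside `S`
  have hcard : ∀ m : ℕ, m * (ε + 1 / M) ≤ 1 →
      m * Nat.card {x // x ∉ S j s₀ f T M} ≤ Nat.card (G ⧸ r.ker) := by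
    intro m hm
    have h1 := energy_gen Φ
      (a := fun p => 1 * X.indicator (fun _ : Nat.Primes => (1 : ℝ)) p + 1 / M * ‖z p‖ ^ 2)
      (fun p => add_nonneg (mul_nonneg zero_le_one (hind0 p))
        (mul_nonneg (by positivity) (sq_nonneg _)))
      (logBound_comb zero_le_one (by positivity) (logBound_ind hX) hz) r.ker hU₀
      (fun x => if x ∈ S j s₀ f T M then 0 else 1)
      (fun x y => by simp only [hSc x y]) Pool.Agent.OneM74.UMod_empty (fun p _ => by
        have i1 : 0 ≤ 1 / M * ‖z p‖ ^ 2 := mul_nonneg (by positivity) (sq_nonneg _)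
        have i2 := hind0 p
        by_cases hS : (QuotientGroup.mk (Φ.frob p) : G ⧸ r.ker) ∈ S j s₀ f T M
        · rw [if_pos hS]
          linarith
        · rw [if_neg hS]
          by_cases hp : p ∈ X
          · rw [Set.indicator_of_mem hp]
            linarith
          · obtain ⟨h2, h3⟩ := hpr p hp
            have h4 : M < ‖z p‖ ^ 2 := by
              by_contra h5
              refine hS ⟨h2, ?_⟩
              rw [h3]
              exact not_lt.1 h5
            have h6 : 1 ≤ 1 / M * ‖z p‖ ^ 2 := by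
              rw [one_div, ← div_eq_inv_mul, le_div_iff₀ hM0]
              linarith
            linarith)
    have h2 : ∑ x, (if x ∈ S j s₀ f T M then (0 : ℝ) else 1) =
        Nat.card {x // x ∉ S j s₀ f T M} := by
      have h3 : ∀ x, (if x ∈ S j s₀ f T M then (0 : ℝ) else 1) =
          if x ∉ S j s₀ f T M then 1 else 0 := fun x => by
        by_cases hx : x ∈ S j s₀ f T M
        · rw [if_pos hx, if_neg (not_not.2 hx)]
        · rw [if_neg hx, if_pos hx]
      simp only [h3]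
      rw [← Finset.sum_filter, Finset.sum_const, nsmul_eq_mul, mul_one, Nat.card_eq_fintype_card,
        Fintype.card_subtype]
    rw [h2] at h1
    rw [Nat.card_eq_fintype_card (α := G ⧸ r.ker)]
    have h4 : (m : ℝ) * Nat.card {x // x ∉ S j s₀ f T M} ≤ Fintype.card (G ⧸ r.ker) := by
      calc (m : ℝ) * Nat.card {x // x ∉ S j s₀ f T M} ≤
            m * ((1 * ε + 1 / M * 1) * Fintype.card (G ⧸ r.ker)) :=
            mul_le_mul_of_nonneg_left h1 (Nat.cast_nonneg _)
        _ = (m * (ε + 1 / M)) * Fintype.card (G ⧸ r.ker) := by ring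
        _ ≤ 1 * Fintype.card (G ⧸ r.ker) := mul_le_mul_of_nonneg_right hm hG.le
        _ = _ := one_mul _
    exact_mod_cast h4
  -- the energy
  have hen0 := energy_gen Φ
    (a := fun p => 1 * ‖z p‖ ^ 2 + M * X.indicator (fun _ : Nat.Primes => (1 : ℝ)) p)
    (fun p => add_nonneg (mul_nonneg zero_le_one (sq_nonneg _)) (mul_nonneg hM0.le (hind0 p)))
    (logBound_comb zero_le_one hM0.le hz (logBound_ind hX)) r.ker hU₀
    (fun x => if x ∈ S j s₀ f T M then ‖s₀ (j (f x))‖ ^ 2 else 0)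
    (fun x y => by simp only [hSc x y, hfc x y]) Pool.Agent.OneM74.UMod_empty (fun p _ => by
      have i1 := sq_nonneg ‖z p‖
      have i2 := mul_nonneg hM0.le (hind0 p)
      by_cases hS : (QuotientGroup.mk (Φ.frob p) : G ⧸ r.ker) ∈ S j s₀ f T M
      · rw [if_pos hS]
        by_cases hp : p ∈ X
        · rw [Set.indicator_of_mem hp]
          have := hS.2
          linarith
        · rw [(hpr p hp).2]
          linarith
      · rw [if_neg hS]
        linarith)
  have hle : 1 * 1 + M * ε ≤ 1 + 1 / (4 * (n : ℝ) ^ 2) := by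
    have h1 : M * ε ≤ 1 / (4 * (n : ℝ) ^ 2) := by
      rw [le_div_iff₀ (by positivity)]
      linarith
    linarith
  have Hs : Set5 T E M s₀ j ι ρ f := by
    refine ⟨hc, hN, fun x hx => hfS x hx.1, hfm, hfc, hcard _ he1, hcard _ he2,
      fun q hq1 hq2 => ?_⟩
    have h1 : ∑ x, q x ≤ ∑ x, (if x ∈ S j s₀ f T M then ‖s₀ (j (f x))‖ ^ 2 else 0) := by
      refine Finset.sum_le_sum fun x _ => ?_
      split_ifs with hx
      · exact hq1 x
      · exact hq2 x hx
    exact h1.trans (hen0.trans (mul_le_mul_of_nonneg_right hle hG.le))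
  obtain ⟨R, hirr, hcor⟩ := Hs.finite_main
  refine ⟨r.ker, inferInstance, R, hU₀, fun g hg => hg, hirr, ?_, fun g c h hgc hh hE => ?_⟩
  · refine UpLE_mono hX fun p hp => ?_
    by_contra hpX
    obtain ⟨c, hc1, hc2, hc3⟩ := h p hpX
    have h1 := hcor (QuotientGroup.mk (Φ.frob p)) c 1 (by rw [hρ, hc3]) hc2 hc.i1
    apply hp
    rw [h1, hc1]
  · exact hcor _ c h (by rw [hρ]; exact hgc) hh hE

end Pool.Agent.OneL74
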