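import Pool.Agent.W_7742l_h74.LTfa

/-! # One representation modulo one ideal of large norm; the equivalence -/

set_option autoImplicit false

noncomputable section

open Filter Topology

namespace Pool.Agent.CritH74

open NumberField Polynomial Height
open Pool.Agent.OneM74 Pool.Agent.GalSide Pool.Agent.OneP74 Pool.Agent.OneI74 Pool.Agent.OneN74
open Pool.Agent.GL74 Pool.Agent.GLForm74
open Pool.Agent.Crit74 (dens_mono dens_union dens_level map_trace' cusp_logBound exists_Q
  mean_of_dens mean_mono GLmap_val GLmap_ker YY_ineq mean_of_rep)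
open Pool.Agent.Cheb
open Pool.Agent.OneJ74 (YY)

variable {n N : ℕ}

theorem motive_of_one (hn : 2 ≤ n) {F : Nat.Primes → GQ} (hF : IsFrobeniusChoice F)
    {P : ℕ → ℂ[X]} {V : Set GQ} {C : GQ → ℂ[X]}
    (hC : ∀ g ∈ V, (C g).Monic ∧ (C g).natDegree = n) (h : AttachedOne n F P V C) :
    HasMotive n F P V C := by
  obtain ⟨K, iK, iN, s, b, A, iA, ι, r, hι, ho, hb, hm, hV⟩ := h
  have hd0 : Module.finrank ℚ K ≠ 0 := (Module.finrank_pos (R := ℚ) (M := K)).ne'
  have hY : YY n ^ Module.finrank ℚ K ≤ Ideal.absNorm (RingHom.ker ι) := by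
    refine le_trans (le_of_eq ?_) hι
    unfold Pool.Agent.OneJ74.YY
    rw [← pow_mul]
  have hF' : Pool.Agent.OneP74.IsFrobeniusFamily F := hF
  have hr : HasDensity {p : Nat.Primes | (r (F p)).val.trace ≠ ι (b p)} 0 :=
    dens_mono hb fun p hp hx => hp hx.2
  obtain ⟨E, iE, iNE, i, R, h1, h2, h3, h4⟩ := one_E (by omega : 0 < n) b hm hF' ι hY r ho hr
  obtain ⟨τ, hτ⟩ := UUni_ext i s
  refine ⟨E, iE, iNE, τ, R, h1.2, h1.1, ?_, fun g hg => ?_⟩
  · refine dens_union h3 hb ?_
    intro p hp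
    by_contra hcon
    rw [Set.mem_union, not_or] at hcon
    have e1 : (R (F p)).val.trace = i (b p : K) := not_not.1 hcon.1
    have e2 : s (b p : K) = -(P p).coeff (n - 1) := (not_not.1 hcon.2).1
    apply hp
    rw [e1, ← e2, ← hτ]
    rfl
  · obtain ⟨Q, q1, q2, q3⟩ := hV g hg
    obtain ⟨c1, c2⟩ := hC g hg
    have hinj : Function.Injective (s.comp (algebraMap (𝓞 K) K)) :=
      s.injective.comp RingOfIntegers.coe_injective
    have hQm : Q.Monic := by
      refine Polynomial.monic_of_injective hinj ?_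
      rw [q1]
      exact c1
    have hQd : Q.natDegree = n := by
      rw [← Polynomial.natDegree_map_eq_of_injective hinj, q1, c2]
    have h5 := h4 g Q 1 hQm hQd le_rfl (fun σ α hα => q2 σ α (by
      rwa [Polynomial.map_map] at hα)) (YY_ineq (by omega) hd0 le_rfl (by
        rw [one_pow, mul_one]
        exact_mod_cast hY)) q3
    rw [h5, Polynomial.map_map, hτ, Polynomial.map_map, q1]

theorem one_of_motive (hn : 0 < n) {F : Nat.Primes → GQ} (hF : IsFrobeniusChoice F)
    {P : ℕ → ℂ[X]} {V : Set GQ} {C : GQ → ℂ[X]} (h : HasMotive n F P V C) :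
    AttachedOne n F P V C := by
  classical
  obtain ⟨E, iE, iN, i, R, hirr, ho, hd, hV⟩ := h
  have hne : Nonempty (Fin n) := ⟨⟨0, hn⟩⟩
  have hfin : Finite (GQ ⧸ R.ker) := Subgroup.quotient_finite_of_isOpen R.ker ho
  have hRm : ∀ g, (R g).val ^ Nat.card (GQ ⧸ R.ker) = 1 := by
    intro g
    have h1 : g ^ Nat.card (GQ ⧸ R.ker) ∈ R.ker := by
      rw [← QuotientGroup.eq_one_iff, QuotientGroup.mk_pow, pow_card_eq_one']
    rw [← Units.val_pow_eq_pow_val, ← map_pow, MonoidHom.mem_ker.1 h1]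
    rfl
  choose Q hQ using fun g : GQ => exists_Q Nat.card_pos (R g).val (hRm _)
  have htrQ : ∀ g, ((-(Q g).coeff (n - 1) : 𝓞 E) : E) = (R g).val.trace := by
    intro g
    have h2 := congrArg (fun f => Polynomial.coeff f (n - 1)) (hQ g)
    simp only [Polynomial.coeff_map] at h2
    rw [Matrix.trace_eq_neg_charpoly_coeff, Fintype.card_fin, ← h2]
    rfl
  obtain ⟨m, hm⟩ : ∃ m : ℕ, m = (2 * n) ^ (3 * (n ^ 2 + 1)) := ⟨_, rfl⟩
  have hm0 : m ≠ 0 := by
    rw [hm]
    exact (pow_pos (by omega) _).ne'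
  obtain ⟨A, iA, ι, r, hk, hker, htr, hch⟩ := exists_mod_ch (RingHom.id E) R ho
    (Ideal.span {(m : 𝓞 E)}) (by
      rw [Ne, Ideal.span_singleton_eq_bot, Nat.cast_eq_zero]
      exact hm0)
  refine ⟨E, iE, iN, i, fun p => -(Q (F p)).coeff (n - 1), A, iA, ι, r, ?_,
    Subgroup.isOpen_mono hker ho, ?_, ?_, fun g hg => ⟨Q g, ?_, ?_, ?_⟩⟩
  · rw [hk, Ideal.absNorm_span_natCast, RingOfIntegers.rank, hm, ← pow_mul]
  · refine dens_mono hd fun p hp hx => hp ⟨?_, ?_⟩
    · rw [htrQ]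
      exact hx
    · exact htr _ _ (htrQ (F p)).symm
  · intro σ
    refine mean_of_rep hn hF ((Matrix.GeneralLinearGroup.map σ).comp R) ?_ ?_ _ fun p => ?_
    · rw [GLmap_ker σ σ.injective]
      exact ho
    · intro W hW
      exact hirr σ W hW
    · rw [htrQ, GLmap_val, map_trace']
  · rw [← Polynomial.map_map, hQ g, hV g hg]
  · intro σ α hα
    rw [← Polynomial.map_map, hQ g, ← Matrix.charpoly_map] at hα
    have h1 : ((R g).val.map σ) ^ Nat.card (GQ ⧸ R.ker) = 1 := by
      rw [← RingHom.mapMatrix_apply, ← map_pow, hRm, map_one]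
    exact (Complex.norm_eq_one_of_pow_eq_one (Pool.Agent.DZ74.FIdn_root _ h1 hα)
      Nat.card_pos.ne').le
  · refine hch _ _ ?_
    rw [hQ g, Polynomial.map_id]

/-- The equivalence. -/
theorem tfae_h (hn : 2 ≤ n) (hN : 0 < N) {P : ℕ → ℂ[X]}
    (hc : IsCuspidalSystem N P n) {F : Nat.Primes → GQ} (hF : IsFrobeniusChoice F)
    {V : Set GQ} {C : GQ → ℂ[X]} (hC : ∀ g ∈ V, (C g).Monic ∧ (C g).natDegree = n) :
    [HasMotive n F P V C,
      ∃ (K : Type) (_ : Field K) (_ : NumberField K) (s : K →+* ℂ) (T : ℕ),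
        ∀ 𝔞 : Ideal (𝓞 K), 𝔞 ≠ ⊥ →
          ∃ (A : Type) (_ : CommRing A) (ι : 𝓞 K →+* A) (r : GQ →* GL (Fin n) A),
            RingHom.ker ι = 𝔞 ∧ NearlyAttached F P V C (algebraMap (𝓞 K) K) s T 0 ι r,
      ∀ W ⊆ V, W.Subsingleton → NearFamily n F P W C,
      AttachedOne n F P V C].TFAE := by
  tfae_have 1 → 2 := exact_of_motive (by omega)
  tfae_have 2 → 3 := fun h W hW _ => near_of_exact (by omega) hW h
  tfae_have 3 → 1 := by
    intro h
    refine motive_of_C (by omega) (combineC hF ?_ fun g hg => ?_)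
    · exact C_of_near hn hN hc hF (by simp) (h ∅ (Set.empty_subset V) Set.subsingleton_empty)
    · exact C_of_near hn hN hc hF (fun q hq => by
        rw [Set.mem_singleton_iff.1 hq]
        exact hC g hg) (h {g} (Set.singleton_subset_iff.2 hg) Set.subsingleton_singleton)
  tfae_have 1 → 4 := one_of_motive (by omega) hF
  tfae_have 4 → 1 := motive_of_one hn hF hC
  tfae_finish

end Pool.Agent.CritH74
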