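import Pool.Agent.W_7742l_h74.LCpx

/-! # The equivalence -/

set_option autoImplicit false

noncomputable section

open Filter Topology

namespace Pool.Agent.CritH74

open NumberField Polynomial Height
open Pool.Agent.OneM74 Pool.Agent.GalSide Pool.Agent.OneP74 Pool.Agent.OneI74 Pool.Agent.OneN74
open Pool.Agent.GL74 Pool.Agent.GLForm74
open Pool.Agent.Crit74 (dens_mono dens_union dens_level map_trace' cusp_logBound exists_Q
  mean_of_dens mean_mono GLmap_val GLmap_ker YY_ineq)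
open Pool.Agent.Cheb
open Pool.Agent.OneL74 (HB)
open Pool.Agent.OneJ74 (YY)

variable {n N : ℕ}

/-- Finitely many polynomials have coefficients of bounded height. -/
theorem exists_height_bound {E : Type} [Field E] [NumberField E] {X : Set E[X]} (hX : X.Finite) :
    ∃ T : ℕ, 1 ≤ T ∧ ∀ Q ∈ X, ∀ k, HeightLE T (Q.coeff k) := by
  classical
  have hfin : (⋃ Q ∈ X, Set.range fun k => mulHeight₁ (Q.coeff k)).Finite := by
    refine hX.biUnion fun Q _ => ?_
    refine (Set.Finite.insert (mulHeight₁ (0 : E))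
      ((Q.support : Set ℕ).toFinite.image fun k => mulHeight₁ (Q.coeff k))).subset ?_
    rintro _ ⟨k, rfl⟩
    by_cases hk : Q.coeff k = 0
    · left
      simp only [hk]
    · right
      exact ⟨k, by simpa using hk, rfl⟩
  obtain ⟨B, hB⟩ := hfin.bddAbove
  obtain ⟨T, hT⟩ := exists_nat_ge B
  refine ⟨T + 1, by omega, fun Q hQ k => ?_⟩
  have h1 : mulHeight₁ (Q.coeff k) ≤ B := hB (Set.mem_biUnion hQ ⟨k, rfl⟩)
  have h2 : (1 : ℝ) ≤ ((T + 1 : ℕ) : ℝ) := by exact_mod_cast (by omega : 1 ≤ T + 1)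
  have h3 : ((T + 1 : ℕ) : ℝ) ≤ ((T + 1 : ℕ) : ℝ) ^ Module.finrank ℚ E :=
    le_self_pow₀ h2 (Module.finrank_pos (R := ℚ) (M := E)).ne'
  have h4 : (T : ℝ) ≤ ((T + 1 : ℕ) : ℝ) := by exact_mod_cast Nat.le_succ T
  unfold HeightLE
  linarith

/-- The norm of an ideal is at most the height of its elements. -/
theorem absNorm_le_height {K : Type} [Field K] [NumberField K] (𝔟 : Ideal (𝓞 K)) {x : 𝓞 K}
    (hx : x ∈ 𝔟) (h0 : x ≠ 0) : (Ideal.absNorm 𝔟 : ℝ) ≤ mulHeight₁ (x : K) := by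
  have hle : Ideal.span {x} ≤ 𝔟 := (Ideal.span_singleton_le_iff_mem _).2 hx
  have hdvd := Ideal.absNorm_dvd_absNorm_of_le hle
  rw [Ideal.absNorm_span_singleton] at hdvd
  have hne : Algebra.norm ℤ x ≠ 0 := Algebra.norm_ne_zero_iff.2 h0
  have hle2 := Nat.le_of_dvd (Int.natAbs_pos.2 hne) hdvd
  have h1 := InfinitePlace.prod_eq_abs_norm (x : K)
  rw [← Algebra.coe_norm_int] at h1
  have h2 : ((|((Algebra.norm ℤ x : ℤ) : ℚ)| : ℚ) : ℝ) = ((Algebra.norm ℤ x).natAbs : ℝ) := by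
    rw [Nat.cast_natAbs]
    push_cast
    rfl
  have h3 : ∏ v : InfinitePlace K, v (x : K) ^ v.mult ≤
      ∏ v : InfinitePlace K, max (v (x : K)) 1 ^ v.mult :=
    Finset.prod_le_prod (fun v _ => pow_nonneg (apply_nonneg v _) _) fun v _ =>
      pow_le_pow_left₀ (apply_nonneg v _) (le_max_left _ _) _
  have h4 : (1 : ℝ) ≤ ∏ᶠ v : FinitePlace K, max (v (x : K)) 1 :=
    one_le_finprod fun v => le_max_right _ _
  have h5 : (0 : ℝ) ≤ ∏ v : InfinitePlace K, max (v (x : K)) 1 ^ v.mult :=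
    Finset.prod_nonneg fun v _ => by positivity
  rw [NumberField.mulHeight₁_eq]
  have h6 : (Ideal.absNorm 𝔟 : ℝ) ≤ ((Algebra.norm ℤ x).natAbs : ℝ) := by exact_mod_cast hle2
  rw [← h2, ← h1] at h6
  nlinarith

/-- A motive gives representations modulo all ideals. -/
theorem exact_of_motive {F : Nat.Primes → GQ} {P : ℕ → ℂ[X]} {V : Set GQ} {C : GQ → ℂ[X]}
    (hn : 0 < n) (h : HasMotive n F P V C) :
    ∃ (K : Type) (_ : Field K) (_ : NumberField K) (s : K →+* ℂ) (T : ℕ),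
      ∀ 𝔞 : Ideal (𝓞 K), 𝔞 ≠ ⊥ →
        ∃ (A : Type) (_ : CommRing A) (ι : 𝓞 K →+* A) (r : GQ →* GL (Fin n) A),
          RingHom.ker ι = 𝔞 ∧ NearlyAttached F P V C (algebraMap (𝓞 K) K) s T 0 ι r := by
  classical
  obtain ⟨E, iE, iN, i, R, hirr, ho, hd, hV⟩ := h
  have hne : Nonempty (Fin n) := ⟨⟨0, hn⟩⟩
  have hfin : Finite (GQ ⧸ R.ker) := Subgroup.quotient_finite_of_isOpen R.ker ho
  have hRm : ∀ g, (R g).val ^ Nat.card (GQ ⧸ R.ker) = 1 := by
    intro g
    have h1 : g ^ Nat.card (GQ ⧸ R.ker) ∈ R.ker := by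
      rw [← QuotientGroup.eq_one_iff, QuotientGroup.mk_pow, pow_card_eq_one']
    rw [← Units.val_pow_eq_pow_val, ← map_pow, MonoidHom.mem_ker.1 h1]
    rfl
  choose Q hQ using fun g : GQ => exists_Q Nat.card_pos (R g).val (hRm _)
  have htrQ : ∀ g, ((-(Q g).coeff (n - 1) : 𝓞 E) : E) = (R g).val.trace := by
    intro g
    have h2 := congrArg (fun f => Polynomial.coeff f (n - 1)) (hQ g)
    simp only [Polynomial.coeff_map] at h2
    rw [Matrix.trace_eq_neg_charpoly_coeff, Fintype.card_fin, ← h2]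
    rfl
  have hrange : (Set.range fun g : GQ => (R g).val.charpoly).Finite := by
    have h1 : (Set.range fun x : GQ ⧸ R.ker => (QuotientGroup.kerLift R x).val.charpoly).Finite :=
      Set.finite_range _
    refine h1.subset ?_
    rintro _ ⟨g, rfl⟩
    exact ⟨QuotientGroup.mk g, rfl⟩
  obtain ⟨T, hT1, hT⟩ := exists_height_bound hrange
  have hTQ : ∀ g k, HeightLE T (((Q g).coeff k : 𝓞 E) : E) := by
    intro g k
    have h1 := hT _ ⟨g, rfl⟩ k
    dsimp only at h1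
    rw [← hQ g, Polynomial.coeff_map] at h1
    exact h1
  refine ⟨E, iE, iN, i, T, fun 𝔞 h𝔞 => ?_⟩
  obtain ⟨A, iA, ι, r, hk, hker, htr, hch⟩ := exists_mod_ch (RingHom.id E) R ho 𝔞 h𝔞
  refine ⟨A, iA, ι, r, hk, Subgroup.isOpen_mono hker ho, ?_, fun g hg => ⟨Q g, ?_, hTQ g, ?_⟩⟩
  · refine mean_of_dens hd ?_
    intro p hp hx
    refine hp ⟨-(Q (F p)).coeff (n - 1), ?_, ?_, ?_⟩
    · show i ((-(Q (F p)).coeff (n - 1) : 𝓞 E) : E) = _
      rw [htrQ]
      exact hx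
    · have h1 := hTQ (F p) (n - 1)
      unfold HeightLE at h1 ⊢
      rw [map_neg, mulHeight₁_neg]
      exact h1
    · exact htr _ _ (htrQ (F p)).symm
  · rw [← Polynomial.map_map, hQ g, hV g hg]
  · refine hch _ _ ?_
    rw [hQ g, Polynomial.map_id]

theorem mean_of_upLE {X : Set Nat.Primes} {ε : ℝ} (h : UpLE X ε) :
    MeanLE ε (X.indicator 1) := by
  intro δ hδ
  have hgt : ∀ᶠ s : ℝ in 𝓝[>] 1, 1 < s := Chb_gt
  filter_upwards [h δ hδ, hgt] with s h1 hs
  have e1 : (fun p : Nat.Primes => X.indicator (1 : Nat.Primes → ℝ) p * ((p : ℕ) : ℝ) ^ (-s)) =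
      X.indicator (fun q : Nat.Primes => ((q : ℕ) : ℝ) ^ (-s)) :=
    funext fun p => Pool.Agent.OneU74.ind_mul X s p
  rw [e1]
  exact ⟨Chb_summable hs X, h1⟩

/-- Representations modulo all ideals give nearly attached representations. -/
theorem near_of_exact (hn : 0 < n) {F : Nat.Primes → GQ} {P : ℕ → ℂ[X]} {V V' : Set GQ}
    {C : GQ → ℂ[X]} (hV : V' ⊆ V)
    (h : ∃ (K : Type) (_ : Field K) (_ : NumberField K) (s : K →+* ℂ) (T : ℕ),
      ∀ 𝔞 : Ideal (𝓞 K), 𝔞 ≠ ⊥ →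
        ∃ (A : Type) (_ : CommRing A) (ι : 𝓞 K →+* A) (r : GQ →* GL (Fin n) A),
          RingHom.ker ι = 𝔞 ∧ NearlyAttached F P V C (algebraMap (𝓞 K) K) s T 0 ι r) :
    NearFamily n F P V' C := by
  classical
  obtain ⟨K, iK, iN, s, T₀, h⟩ := h
  intro ε hε
  obtain ⟨T, hTdef⟩ : ∃ T : ℕ, T = T₀ + 2 * n := ⟨_, rfl⟩
  have hTT : (T₀ : ℝ) ≤ T := by exact_mod_cast (by omega : T₀ ≤ T)
  have hmono : ∀ x : K, HeightLE T₀ x → HeightLE T x := fun x hx =>
    hx.trans (pow_le_pow_left₀ (Nat.cast_nonneg _) hTT _)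
  obtain ⟨m, hm⟩ : ∃ m : ℕ, m = T ^ ((2 * n) ^ (2 * n)) := ⟨_, rfl⟩
  have hm0 : m ≠ 0 := by
    rw [hm]
    exact (pow_pos (by omega) _).ne'
  obtain ⟨A, iA, ι, r, hk, h1, h2, h3⟩ := h (Ideal.span {(m : 𝓞 K)}) (by
    rw [Ne, Ideal.span_singleton_eq_bot, Nat.cast_eq_zero]
    exact hm0)
  -- the ring of integers as a subring
  obtain ⟨O, hO⟩ : ∃ O : Subring K, O = (algebraMap (𝓞 K) K).range := ⟨_, rfl⟩
  have hinj : Function.Injective (algebraMap (𝓞 K) K) := RingOfIntegers.coe_injective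
  obtain ⟨e, he⟩ : ∃ e : 𝓞 K ≃+* O, ∀ x, ((e x : O) : K) = (x : K) := by
    subst hO
    exact ⟨RingEquiv.ofBijective (algebraMap (𝓞 K) K).rangeRestrict
      ⟨fun x y hxy => hinj (congrArg (fun z : (algebraMap (𝓞 K) K).range => (z : K)) hxy),
        RingHom.rangeRestrict_surjective _⟩,
      fun x => rfl⟩
  have he' : ∀ y : O, ((e.symm y : 𝓞 K) : K) = (y : K) := by
    intro y
    rw [← he, e.apply_symm_apply]
  refine ⟨T, by omega, K, iK, iN, s, O, A, iA, ι.comp e.symm.toRingHom, r, ?_, h1, ?_,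
    fun g hg => ?_⟩
  · intro x hx0 hx
    have hx' : e.symm x ∈ Ideal.span {(m : 𝓞 K)} := by rw [← hk]; exact hx
    have hx0' : e.symm x ≠ 0 := by
      rw [Ne, EmbeddingLike.map_eq_zero_iff]
      exact hx0
    have h4 := absNorm_le_height _ hx' hx0'
    rw [he', Ideal.absNorm_span_natCast, RingOfIntegers.rank] at h4
    unfold HeightGE
    refine le_trans (le_of_eq ?_) h4
    rw [hm]
    push_cast
    rfl
  · refine mean_mono hε.le ?_
    have e1 : {p : Nat.Primes | ¬ ∃ c : O, s (O.subtype c) = -(P p).coeff (n - 1) ∧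
        HeightLE T (O.subtype c) ∧ (r (F p)).val.trace = (ι.comp e.symm.toRingHom) c} ⊆
        {p : Nat.Primes | ¬ ∃ c : 𝓞 K, s (algebraMap (𝓞 K) K c) = -(P p).coeff (n - 1) ∧
        HeightLE T₀ (algebraMap (𝓞 K) K c) ∧ (r (F p)).val.trace = ι c} := by
      intro p hp hcon
      obtain ⟨c, c1, c2, c3⟩ := hcon
      refine hp ⟨e c, ?_, ?_, ?_⟩
      · show s ((e c : O) : K) = _
        rw [he]
        exact c1
      · show HeightLE T ((e c : O) : K)
        rw [he]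
        exact hmono _ c2
      · show _ = ι (e.symm (e c))
        rw [e.symm_apply_apply]
        exact c3
    exact mean_of_upLE (Pool.Agent.OneU74.UpLE_mono (upLE_of_mean h2) e1)
  · obtain ⟨Q, q1, q2, q3⟩ := h3 g (hV hg)
    refine ⟨Q.map e.toRingHom, ?_, fun k => ?_, ?_⟩
    · rw [Polynomial.map_map, ← q1]
      congr 1
      ext x
      show s ((e x : O) : K) = _
      rw [he]
      rfl
    · rw [Polynomial.coeff_map]
      show HeightLE T ((e (Q.coeff k) : O) : K)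
      rw [he]
      exact hmono _ (q2 k)
    · rw [q3, Polynomial.map_map]
      congr 1
      ext x
      show ι x = ι (e.symm (e x))
      rw [e.symm_apply_apply]

end Pool.Agent.CritH74
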