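import Pool.Agent.W_7742l_h74.LHgt
import Pool.Agent.W_7742j_h74.JGod

/-! # Heights at most `T ^ e` -/

set_option autoImplicit false

noncomputable section

namespace Pool.Agent.OneL74

open Height Pool.Agent.OneI74
open Pool.Agent.OneJ74 (Good)

variable {K : Type} [Field K] [NumberField K]

/-- The absolute height of `x` is at most `T ^ e`. -/
def HB (T e : ℕ) (x : K) : Prop := mulHeight₁ x ≤ ((T : ℝ) ^ e) ^ Module.finrank ℚ K

theorem HB.mono {T a b : ℕ} {x : K} (h : HB T a x) (hT : 1 ≤ T) (hab : a ≤ b) : HB T b x := by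
  have hT' : (1 : ℝ) ≤ T := by exact_mod_cast hT
  exact h.trans (pow_le_pow_left₀ (by positivity) (pow_le_pow_right₀ hT' hab) _)

theorem HB.mul {T a b : ℕ} {x y : K} (hx : HB T a x) (hy : HB T b y) : HB T (a + b) (x * y) := by
  refine (mulHeight₁_mul_le x y).trans ?_
  rw [pow_add, mul_pow]
  exact mul_le_mul hx hy (mulHeight₁_nonneg y) (by positivity)

theorem HB.neg {T a : ℕ} {x : K} (hx : HB T a x) : HB T a (-x) := by
  unfold HB
  rw [mulHeight₁_neg]
  exact hx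

theorem HB.zero {T a : ℕ} (hT : 1 ≤ T) : HB T a (0 : K) := by
  unfold HB
  rw [mulHeight₁_zero]
  have hT' : (1 : ℝ) ≤ T := by exact_mod_cast hT
  exact one_le_pow₀ (one_le_pow₀ hT')

theorem HB.one {T a : ℕ} (hT : 1 ≤ T) : HB T a (1 : K) := by
  unfold HB
  rw [mulHeight₁_one]
  have hT' : (1 : ℝ) ≤ T := by exact_mod_cast hT
  exact one_le_pow₀ (one_le_pow₀ hT')

theorem HB.sum_gen {T c : ℕ} (hT : 1 ≤ T) {α : Type} (s : Finset α) (hs : s.card ≤ T ^ c)
    (e : α → ℕ) (x : α → K) (h : ∀ a ∈ s, HB T (e a) (x a)) :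
    HB T (c + ∑ a ∈ s, e a) (∑ a ∈ s, x a) := by
  rcases s.eq_empty_or_nonempty with rfl | hne
  · rw [Finset.sum_empty]
    exact HB.zero hT
  · refine (mulHeight₁_sum_le hne x).trans ?_
    rw [NumberField.totalWeight_eq_finrank, pow_add, mul_pow, ← Finset.prod_pow_eq_pow_sum,
      ← Finset.prod_pow]
    refine mul_le_mul ?_ (Finset.prod_le_prod (fun a _ => mulHeight₁_nonneg _) fun a ha => h a ha)
      (Finset.prod_nonneg fun a _ => mulHeight₁_nonneg _) (by positivity)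
    exact pow_le_pow_left₀ (Nat.cast_nonneg _) (by exact_mod_cast hs) _

theorem HB.sum {T a : ℕ} (hT : 1 ≤ T) {α : Type} (s : Finset α) (hs : s.card ≤ T) (x : α → K)
    (h : ∀ i ∈ s, HB T a (x i)) : HB T (1 + s.card * a) (∑ i ∈ s, x i) := by
  have h1 := HB.sum_gen (c := 1) hT s (by rw [pow_one]; exact hs) (fun _ => a) x h
  rw [Finset.sum_const, smul_eq_mul] at h1
  exact h1

theorem HB.natCast {T c m : ℕ} (hT : 1 ≤ T) (hm : m ≤ T ^ c) : HB T c (m : K) := by
  have h1 := HB.sum_gen (K := K) (c := c) hT (Finset.range m) (by rw [Finset.card_range]; exact hm)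
    (fun _ => 0) (fun _ => 1) (fun a _ => HB.one hT)
  rw [Finset.sum_const, smul_zero, add_zero, Finset.sum_const, Finset.card_range, nsmul_eq_mul,
    mul_one] at h1
  exact h1

theorem HB.sub {T a b : ℕ} {x y : K} (hT : 2 ≤ T) (hx : HB T a x) (hy : HB T b y) :
    HB T (1 + a + b) (x - y) := by
  refine (mulHeight₁_sub_le x y).trans ?_
  rw [NumberField.totalWeight_eq_finrank, pow_add, pow_add, mul_pow, mul_pow, pow_one]
  refine mul_le_mul (mul_le_mul ?_ hx (mulHeight₁_nonneg x) (by positivity)) hy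
    (mulHeight₁_nonneg y) (by positivity)
  exact pow_le_pow_left₀ (by norm_num) (by exact_mod_cast hT) _

theorem HB.det {T c m : ℕ} (hm : m.factorial ≤ T ^ c) (e : Fin m → Fin m → ℕ)
    (M : Matrix (Fin m) (Fin m) K) (h : ∀ i j, HB T (e i j) (M i j)) :
    HB T (c + ∑ i, ∑ j, e i j) M.det := by
  refine (height_det M).trans ?_
  rw [NumberField.totalWeight_eq_finrank, pow_add, mul_pow]
  have h1 : ∏ i, ∏ j, mulHeight₁ (M i j) ≤
      ((T : ℝ) ^ (∑ i, ∑ j, e i j)) ^ Module.finrank ℚ K := by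
    rw [← Finset.prod_pow_eq_pow_sum, ← Finset.prod_pow]
    refine Finset.prod_le_prod (fun i _ => Finset.prod_nonneg fun j _ => mulHeight₁_nonneg _)
      fun i _ => ?_
    rw [← Finset.prod_pow_eq_pow_sum, ← Finset.prod_pow]
    exact Finset.prod_le_prod (fun j _ => mulHeight₁_nonneg _) fun j _ => h i j
  refine mul_le_mul ?_ h1 (Finset.prod_nonneg fun i _ => Finset.prod_nonneg fun j _ =>
    mulHeight₁_nonneg _) (by positivity)
  exact pow_le_pow_left₀ (Nat.cast_nonneg _) (by exact_mod_cast hm) _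

theorem not_HB_natCast (T : ℕ) : ¬ HB T 1 ((T + 1 : ℕ) : K) := by
  intro h
  unfold HB at h
  rw [NumberField.mulHeight₁_eq, pow_one] at h
  have h1 : ∀ v : NumberField.InfinitePlace K, v (((T + 1 : ℕ) : K)) = ((T + 1 : ℕ) : ℝ) := by
    intro v
    rw [← NumberField.InfinitePlace.norm_embedding_eq, map_natCast, Complex.norm_natCast]
  have h2 : ((T + 1 : ℕ) : ℝ) ^ Module.finrank ℚ K ≤
      ∏ v : NumberField.InfinitePlace K, max (v (((T + 1 : ℕ) : K))) 1 ^ v.mult := by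
    rw [← NumberField.InfinitePlace.sum_mult_eq, ← Finset.prod_pow_eq_pow_sum]
    refine Finset.prod_le_prod (fun v _ => by positivity) fun v _ => ?_
    rw [h1]
    exact pow_le_pow_left₀ (Nat.cast_nonneg _) (le_max_left _ _) _
  have h3 : (1 : ℝ) ≤ ∏ᶠ v : NumberField.FinitePlace K, max (v (((T + 1 : ℕ) : K))) 1 :=
    one_le_finprod fun v => le_max_right _ _
  have h4 : (T : ℝ) ^ Module.finrank ℚ K < ((T + 1 : ℕ) : ℝ) ^ Module.finrank ℚ K :=
    pow_lt_pow_left₀ (by exact_mod_cast Nat.lt_succ_self T) (Nat.cast_nonneg _)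
      (Module.finrank_pos (R := ℚ) (M := K)).ne'
  have h5 : (0 : ℝ) ≤ ∏ v : NumberField.InfinitePlace K,
      max (v (((T + 1 : ℕ) : K))) 1 ^ v.mult := Finset.prod_nonneg fun v _ => by positivity
  nlinarith

/-- The exponents for `pol`. -/
def qe : ℕ → ℕ
  | 0 => 0
  | k + 1 => (k + 1) * qe k + 3

theorem HB.pol {Γ : Type} [Mul Γ] {T : ℕ} (hT : 2 ≤ T) (b : Γ → K) (S : Set Γ)
    (hS : ∀ g ∈ S, HB T 1 (b g)) (k : ℕ) (hk : k ≤ T) (y : Fin k → Γ) (hy : Good S k y) :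
    HB T (qe k) (OneI74.pol b k y) := by
  have hT1 : 1 ≤ T := by omega
  induction k with
  | zero =>
    rw [pol_zero]
    exact HB.one hT1
  | succ k ih =>
    obtain ⟨h1, h2, h3⟩ := hy
    rw [pol_succ]
    have e1 := (hS _ h1).mul (ih (by omega) _ h2)
    have e2 := HB.sum hT1 (Finset.univ : Finset (Fin k))
      (by rw [Finset.card_univ, Fintype.card_fin]; omega)
      (fun a => OneI74.pol b k (Function.update (Fin.tail y) a (y a.succ * y 0)))
      (fun a _ => ih (by omega) _ (h3 a))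
    rw [Finset.card_univ, Fintype.card_fin] at e2
    refine (HB.sub hT e1 e2).mono hT1 (le_of_eq ?_)
    show 1 + (1 + qe k) + (1 + k * qe k) = (k + 1) * qe k + 3
    ring

/-- The exponents for the entries of powers of a matrix. -/
def ae (n : ℕ) : ℕ → ℕ
  | 0 => 0
  | k + 1 => 1 + n * (ae n k + 1)

theorem HB.pow_entry {T n : ℕ} (hT : 1 ≤ T) (hn : n ≤ T) (D : Matrix (Fin n) (Fin n) K)
    (hD : ∀ i j, HB T 1 (D i j)) (k : ℕ) (i j : Fin n) : HB T (ae n k) ((D ^ k) i j) := by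
  induction k generalizing i j with
  | zero =>
    rw [pow_zero, Matrix.one_apply]
    split_ifs
    · exact HB.one hT
    · exact HB.zero hT
  | succ k ih =>
    rw [pow_succ, Matrix.mul_apply]
    have h1 := HB.sum hT (Finset.univ : Finset (Fin n))
      (by rw [Finset.card_univ, Fintype.card_fin]; exact hn)
      (fun l => (D ^ k) i l * D l j) (fun l _ => (ih i l).mul (hD l j))
    rw [Finset.card_univ, Fintype.card_fin] at h1
    exact h1

theorem HB.trace_pow {T n : ℕ} (hT : 1 ≤ T) (hn : n ≤ T) (D : Matrix (Fin n) (Fin n) K)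
    (hD : ∀ i j, HB T 1 (D i j)) (k : ℕ) : HB T (1 + n * ae n k) ((D ^ k).trace) := by
  have h1 := HB.sum hT (Finset.univ : Finset (Fin n))
    (by rw [Finset.card_univ, Fintype.card_fin]; exact hn)
    (fun i => (D ^ k) i i) (fun i _ => HB.pow_entry hT hn D hD k i i)
  rw [Finset.card_univ, Fintype.card_fin] at h1
  exact h1

/-! The inequalities for the exponents -/

theorem qe_le (k : ℕ) : qe k + 3 ≤ 3 * (k + 1) ^ k := by
  induction k with
  | zero => simp [qe]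
  | succ k ih =>
    have e : qe (k + 1) = (k + 1) * qe k + 3 := rfl
    rw [e]
    rcases Nat.eq_zero_or_pos k with rfl | hk
    · simp [qe]
    · have h1 : (k + 1) * (qe k + 3) ≤ (k + 1) * (3 * (k + 1) ^ k) := Nat.mul_le_mul_left _ ih
      have h2 : (k + 1) * (3 * (k + 1) ^ k) = 3 * (k + 1) ^ (k + 1) := by ring
      have h3 : (k + 1) ^ (k + 1) ≤ (k + 1 + 1) ^ (k + 1) :=
        Nat.pow_le_pow_left (Nat.le_succ _) _
      nlinarith

theorem ae_le (n k : ℕ) (hn : 2 ≤ n) : ae n k + 2 ≤ 2 * (n + 1) ^ k := by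
  induction k with
  | zero => simp [ae]
  | succ k ih =>
    have e : ae n (k + 1) = 1 + n * (ae n k + 1) := rfl
    rw [e]
    have h1 : n * (ae n k + 2) ≤ n * (2 * (n + 1) ^ k) := Nat.mul_le_mul_left _ ih
    have h2 : 1 ≤ (n + 1) ^ k := Nat.one_le_pow _ _ (by omega)
    have h3 : (n + 1) ^ (k + 1) = n * (n + 1) ^ k + (n + 1) ^ k := by ring
    nlinarith

theorem pow_bound {n : ℕ} (hn : 2 ≤ n) : 2 * (2 * n) ^ (n + 1) ≤ (2 * n) ^ (2 * n) := by
  calc 2 * (2 * n) ^ (n + 1) ≤ (2 * n) * (2 * n) ^ (n + 1) := Nat.mul_le_mul_right _ (by omega)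
    _ = (2 * n) ^ (n + 2) := by ring
    _ ≤ (2 * n) ^ (2 * n) := Nat.pow_le_pow_right (by omega) (by omega)

theorem ine_q {n : ℕ} (hn : 2 ≤ n) : qe (n + 1) < (2 * n) ^ (2 * n) := by
  have h1 := qe_le (n + 1)
  have h2 : 3 * (n + 1 + 1) ^ (n + 1) ≤ (2 * n) ^ (2 * n) := by
    rcases Nat.lt_or_ge n 3 with h | h
    · obtain rfl : n = 2 := by omega
      norm_num
    · calc 3 * (n + 1 + 1) ^ (n + 1) ≤ (2 * n) * (2 * n) ^ (n + 1) :=
            Nat.mul_le_mul (by omega) (Nat.pow_le_pow_left (by omega) _)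
        _ = (2 * n) ^ (n + 2) := by ring
        _ ≤ (2 * n) ^ (2 * n) := Nat.pow_le_pow_right (by omega) (by omega)
  omega

theorem four_bound {n : ℕ} (hn : 2 ≤ n) :
    2 * (2 * (n ^ 2 + 1) + (n ^ 2 + 1) ^ 2) < (2 * n) ^ (2 * n) := by
  have h1 : 2 * (2 * (n ^ 2 + 1) + (n ^ 2 + 1) ^ 2) < (2 * n) ^ 4 := by
    have : 4 ≤ n ^ 2 := by nlinarith
    nlinarith
  exact h1.trans_le (Nat.pow_le_pow_right (by omega) (by omega))

theorem ine_c {n k : ℕ} (hn : 2 ≤ n) (hk : k ≤ n) :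
    2 * (n ^ 2 + 1) + (n ^ 2 + 1) ^ 2 + (1 + n * ae n k) < (2 * n) ^ (2 * n) := by
  have h1 := four_bound hn
  have h2 := ae_le n k hn
  have h3 : (n + 1) ^ k ≤ (2 * n) ^ n :=
    (Nat.pow_le_pow_left (by omega) _).trans (Nat.pow_le_pow_right (by omega) hk)
  have h4 : 2 * (1 + n * ae n k) ≤ 2 * (2 * n) ^ (n + 1) := by
    have h5 : n * (ae n k + 2) ≤ n * (2 * (2 * n) ^ n) :=
      Nat.mul_le_mul_left _ (h2.trans (Nat.mul_le_mul_left _ h3))
    have h6 : n * (2 * (2 * n) ^ n) = (2 * n) ^ (n + 1) := by ring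
    nlinarith
  have h7 := pow_bound hn
  omega

theorem factorial_bound {n T : ℕ} (hT : n ^ 2 + 1 ≤ T ^ 2) :
    (n ^ 2 + 1).factorial ≤ T ^ (2 * (n ^ 2 + 1)) := by
  calc (n ^ 2 + 1).factorial ≤ (n ^ 2 + 1) ^ (n ^ 2 + 1) := Nat.factorial_le_pow _
    _ ≤ (T ^ 2) ^ (n ^ 2 + 1) := Nat.pow_le_pow_left hT _
    _ = T ^ (2 * (n ^ 2 + 1)) := by rw [← pow_mul]

end Pool.Agent.OneL74
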