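import Mathlib.NumberTheory.Height.NumberField
import Mathlib.Algebra.FiniteSupport.Basic
import Mathlib.LinearAlgebra.Matrix.Trace
import Mathlib.LinearAlgebra.Matrix.Determinant.Basic
import Mathlib.Algebra.Order.BigOperators.GroupWithZero.Finset
import Mathlib.Algebra.Order.Ring.IsNonarchimedean

/-! # Heights: local bounds give global bounds -/

set_option autoImplicit false

noncomputable section

namespace Pool.Agent.OneL74

open Height Height.AdmissibleAbsValues Function

theorem finite_max {K : Type} [Field K] [AdmissibleAbsValues K] (x : K) :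
    (fun v : nonarchAbsVal (K := K) => max (v.val x) 1).HasFiniteMulSupport := by
  rcases eq_or_ne x 0 with rfl | hx
  · simp [HasFiniteMulSupport]
  · have := hasFiniteMulSupport hx
    fun_prop (disch := assumption)

/-- Bounds for the local factors give a bound for the height. -/
theorem height_le_of_local {K : Type} [Field K] [AdmissibleAbsValues K] {α : Type} (s : Finset α)
    (x : α → K) (w : K) {C : ℝ} (hC : 0 ≤ C)
    (h1 : ∀ v : AbsoluteValue K ℝ, max (v w) 1 ≤ C * ∏ a ∈ s, max (v (x a)) 1)
    (h2 : ∀ v : AbsoluteValue K ℝ, IsNonarchimedean v → max (v w) 1 ≤ ∏ a ∈ s, max (v (x a)) 1) :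
    mulHeight₁ w ≤ C ^ totalWeight K * ∏ a ∈ s, mulHeight₁ (x a) := by
  have hf := fun x : K => finite_max x
  simp only [mulHeight₁_eq, totalWeight]
  rw [Finset.prod_mul_distrib, ← Multiset.prod_replicate, ← Multiset.map_const,
    ← finprod_prod_comm _ _ (fun b _ => hf _),
    ← Multiset.prod_map_prod, ← mul_assoc, ← Multiset.prod_map_mul]
  simp only [Function.const_apply]
  gcongr
  · exact finprod_nonneg fun _ => by positivity
  · exact Multiset.prod_map_nonneg fun _ _ => mul_nonneg hC
      (Finset.prod_nonneg fun _ _ => by positivity)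
  · exact Multiset.prod_map_le_prod_map₀ _ _ (fun _ _ => by positivity) fun v _ => h1 v
  · refine finprod_le_finprod (hf w) (fun _ => by positivity) ?_ fun v =>
      h2 v.val (isNonarchimedean _ v.prop)
    exact HasFiniteMulSupport.prod (fun a => hf (x a)) s

/-- Sums of products: each term is a product of different elements of the family, up to a factor of
absolute value at most one. -/
theorem height_sum_prod {K : Type} [Field K] [AdmissibleAbsValues K] {α β : Type} [Fintype β]
    (s : Finset α) (hs : s.Nonempty) (w : α → K) (x : β → K)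
    (h : ∀ a ∈ s, ∀ v : AbsoluteValue K ℝ, v (w a) ≤ ∏ b, max (v (x b)) 1) :
    mulHeight₁ (∑ a ∈ s, w a) ≤ (s.card : ℝ) ^ totalWeight K * ∏ b, mulHeight₁ (x b) := by
  have hp : ∀ v : AbsoluteValue K ℝ, 1 ≤ ∏ b, max (v (x b)) 1 := fun v =>
    Finset.one_le_prod fun b _ => le_max_right _ _
  have hc : (1 : ℝ) ≤ s.card := by exact_mod_cast hs.card_pos
  refine height_le_of_local Finset.univ x _ (Nat.cast_nonneg _) (fun v => ?_) fun v hv => ?_
  · refine max_le ?_ ?_
    · refine (v.sum_le s w).trans ?_
      refine (Finset.sum_le_sum fun a ha => h a ha v).trans ?_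
      rw [Finset.sum_const, nsmul_eq_mul]
    · nlinarith [hp v]
  · refine max_le ?_ (hp v)
    refine (hv.apply_sum_le_sup hs).trans ?_
    exact Finset.sup'_le hs _ fun a ha => h a ha v

/-- The height of a determinant. -/
theorem height_det {K : Type} [Field K] [AdmissibleAbsValues K] {m : ℕ}
    (M : Matrix (Fin m) (Fin m) K) :
    mulHeight₁ M.det ≤ (m.factorial : ℝ) ^ totalWeight K * ∏ i, ∏ j, mulHeight₁ (M i j) := by
  have h1 := height_sum_prod (Finset.univ : Finset (Equiv.Perm (Fin m))) Finset.univ_nonempty
    (fun σ => ((Equiv.Perm.sign σ : ℤ) : K) * ∏ i, M (σ i) i) (fun b : Fin m × Fin m => M b.1 b.2)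
    (fun σ _ v => by
      rw [map_mul, map_prod]
      have e1 : v ((Equiv.Perm.sign σ : ℤ) : K) = 1 := by
        rcases Int.units_eq_one_or (Equiv.Perm.sign σ) with h | h
        · rw [h]
          simp
        · rw [h]
          simp
      rw [e1, one_mul, Fintype.prod_prod_type, Finset.prod_comm]
      refine Finset.prod_le_prod (fun i _ => v.nonneg _) fun i _ => ?_
      exact Finset.le_prod_max_one (Finset.mem_univ (σ i)) fun j => v (M j i))
  rw [Finset.card_univ, Fintype.card_perm, Fintype.card_fin, Fintype.prod_prod_type] at h1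
  rw [Matrix.det_apply']
  exact h1

end Pool.Agent.OneL74
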