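import Pool.Agent.W_7742x_h74.QDef
import Mathlib.NumberTheory.Height.NumberField

/-! # Definitions for the statement: Galois representations attached to polynomials, heights -/

set_option autoImplicit false

noncomputable section

namespace Pool.Agent.CritH74

open NumberField Polynomial Filter Topology

/-- The absolute Galois group of `k`. -/
abbrev AbsGal (k : Type) [Field k] : Type := AlgebraicClosure k ≃ₐ[k] AlgebraicClosure k

/-- The ring of the algebraic integers in the algebraic closure of `k`. -/
abbrev IntClosure (k : Type) [Field k] : Type := integralClosure ℤ (AlgebraicClosure k)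

/-- The absolute Galois group of `ℚ`. -/
abbrev GQ : Type := AbsGal ℚ

/-- The ring of all algebraic integers. -/
abbrev Zbar : Type := IntClosure ℚ

/-- `F p` is a Frobenius element at a prime ideal `𝔓` of the ring of all algebraic integers which
contains `p`, for all primes `p`: `F p x ≡ x ^ p` modulo `𝔓` for all algebraic integers `x`. -/
def IsFrobeniusChoice (F : Nat.Primes → GQ) : Prop :=
  ∀ p : Nat.Primes, ∃ 𝔓 : Ideal Zbar, 𝔓.IsPrime ∧ ((p : ℕ) : Zbar) ∈ 𝔓 ∧
    ∀ x : Zbar, ∃ y ∈ 𝔓, F p (x : AlgebraicClosure ℚ) = (x : AlgebraicClosure ℚ) ^ (p : ℕ) + y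

/-- The set `X` of primes has Dirichlet density zero. -/
def DensityZero (X : Set Nat.Primes) : Prop :=
  Tendsto (fun s : ℝ => (∑' p : Nat.Primes, X.indicator
    (fun q : Nat.Primes => ((q : ℕ) : ℝ) ^ (-s)) p) / Real.log (1 / (s - 1))) (𝓝[>] 1) (𝓝 0)

/-- The (upper) mean of `a p` over the primes is at most `M`: the series of the `a p * p ^ (-s)` converges
for `s > 1` near `1`, and the limit superior of its quotient by `log (1 / (s - 1))` for `s → 1` is at
most `M`. -/
def MeanLE (M : ℝ) (a : Nat.Primes → ℝ) : Prop :=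
  ∀ ε : ℝ, 0 < ε → ∀ᶠ s : ℝ in 𝓝[>] 1,
    Summable (fun p : Nat.Primes => a p * ((p : ℕ) : ℝ) ^ (-s)) ∧
    ∑' p : Nat.Primes, a p * ((p : ℕ) : ℝ) ^ (-s) ≤ (M + ε) * Real.log (1 / (s - 1))

/-- The representation `R` over the number field `E` is absolutely irreducible: for every embedding of
`E` in `ℂ` there are no invariant subspaces of `ℂ ^ n` besides the trivial ones. -/
def IsAbsIrreducible {E : Type} [Field E] {n : ℕ} (R : GQ →* GL (Fin n) E) : Prop :=
  ∀ (τ : E →+* ℂ) (W : Submodule ℂ (Fin n → ℂ)),
    (∀ g, ∀ w ∈ W, ((R g).val.map τ).mulVec w ∈ W) → W = ⊥ ∨ W = ⊤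

/-- There is an absolutely irreducible representation `R` with open kernel over a number field `E` in
`ℂ` such that `tr R (F p)` is the trace of the polynomial `P p` over `ℂ` (of degree `n`; the trace is the
coefficient of degree `n - 1` up to the sign) for all primes `p` outside a set of density zero, and the
characteristic polynomial of `R g` is `C g` for all `g ∈ V`. -/
def HasMotive (n : ℕ) (F : Nat.Primes → GQ) (P : ℕ → ℂ[X]) (V : Set GQ) (C : GQ → ℂ[X]) : Prop :=
  ∃ (E : Type) (_ : Field E) (_ : NumberField E) (i : E →+* ℂ) (R : GQ →* GL (Fin n) E),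
    IsAbsIrreducible R ∧ IsOpen (R.ker : Set GQ) ∧
    DensityZero {p : Nat.Primes | i (R (F p)).val.trace ≠ -(P p).coeff (n - 1)} ∧
    ∀ g ∈ V, (R g).val.charpoly.map i = C g

/-- The (absolute, multiplicative) height of the element `x` of the number field `K` is at most `T`. -/
def HeightLE {K : Type} [Field K] [NumberField K] (T : ℝ) (x : K) : Prop :=
  Height.mulHeight₁ x ≤ T ^ Module.finrank ℚ K

/-- The (absolute, multiplicative) height of the element `x` of the number field `K` is at least `T`. -/
def HeightGE {K : Type} [Field K] [NumberField K] (T : ℝ) (x : K) : Prop :=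
  T ^ Module.finrank ℚ K ≤ Height.mulHeight₁ x

/-- The number field `K` is embedded in `ℂ` by `s`, the ring `O` is mapped to `K` by `j`, and
`ι : O → A` is a homomorphism to a commutative ring.  The representation `r` over `A` has open kernel and
is attached to the polynomials `P p` over `ℂ` up to a set of primes of upper density at most `ε`: for all
primes `p` outside such a set the trace of `P p` is an element `c` of `O` of height at most `T`, and
the trace of `r (F p)` is `ι c`.  For all `g ∈ V` the polynomial `C g` has coefficients in `O` of height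
at most `T`, and its image over `A` is the characteristic polynomial of `r g`. -/
def NearlyAttached (F : Nat.Primes → GQ) {K O A : Type} [Field K] [NumberField K] [CommRing O]
    [CommRing A] {n : ℕ} (P : ℕ → ℂ[X]) (V : Set GQ) (C : GQ → ℂ[X]) (j : O →+* K) (s : K →+* ℂ)
    (T ε : ℝ) (ι : O →+* A) (r : GQ →* GL (Fin n) A) : Prop :=
  IsOpen (r.ker : Set GQ) ∧
    MeanLE ε ({p : Nat.Primes | ¬ ∃ c : O, s (j c) = -(P p).coeff (n - 1) ∧
      HeightLE T (j c) ∧ (r (F p)).val.trace = ι c}.indicator 1) ∧
    ∀ g ∈ V, ∃ Q : O[X], Q.map (s.comp j) = C g ∧ (∀ k, HeightLE T (j (Q.coeff k))) ∧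
      (r g).val.charpoly = Q.map ι

/-- There are a number field `K` in `ℂ`, of degree `d`, algebraic integers `b p` of `K`, a homomorphism
`ι` from `𝓞 K` to a commutative ring `A` whose kernel has norm at least `(2 n) ^ (3 (n ^ 2 + 1) d)`, and
a representation `r` over `A` with open kernel, such that for all primes `p` outside a set of density zero
`b p` is the trace of `P p` in `ℂ` and the trace of `r (F p)` in `A`, such that the absolute values of the
conjugates of the `b p` have mean square at most `1`, and such that for all `g ∈ V` the polynomial `C g`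
has coefficients in `𝓞 K`, the roots of its conjugates have absolute value at most `1`, and its image
over `A` is the characteristic polynomial of `r g`. -/
def AttachedOne (n : ℕ) (F : Nat.Primes → GQ) (P : ℕ → ℂ[X]) (V : Set GQ) (C : GQ → ℂ[X]) : Prop :=
  ∃ (K : Type) (_ : Field K) (_ : NumberField K) (s : K →+* ℂ) (b : Nat.Primes → 𝓞 K)
    (A : Type) (_ : CommRing A) (ι : 𝓞 K →+* A) (r : GQ →* GL (Fin n) A),
    (2 * n) ^ (3 * (n ^ 2 + 1) * Module.finrank ℚ K) ≤ Ideal.absNorm (RingHom.ker ι) ∧
    IsOpen (r.ker : Set GQ) ∧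
    DensityZero {p : Nat.Primes | ¬ (s (b p : K) = -(P p).coeff (n - 1) ∧
      (r (F p)).val.trace = ι (b p))} ∧
    (∀ σ : K →+* ℂ, MeanLE 1 fun p => ‖σ (b p : K)‖ ^ 2) ∧
    ∀ g ∈ V, ∃ Q : (𝓞 K)[X], Q.map (s.comp (algebraMap (𝓞 K) K)) = C g ∧
      (∀ σ : K →+* ℂ, ∀ α ∈ (Q.map (σ.comp (algebraMap (𝓞 K) K))).roots, ‖α‖ ≤ 1) ∧
      (r g).val.charpoly = Q.map ι

end Pool.Agent.CritH74
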